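import Pool.Agent.Work.MP_1d0aa8_co.NS.Final

/-!
# Near-stars, for every `N`
-/

set_option autoImplicit false

namespace Pool.Agent.Work.MP_1d0aa8_co.NS

open Finset
open scoped Classical
open TOne

/-- At most one member avoids `x`. -/
theorem few {N : ℕ} {F : Finset (Finset ℤ)} {x : ℤ} (hF : Fam N F) (hx : x ∈ Icc 1 (N : ℤ))
    (h : (Av F x).card ≤ 1) : F.card ≤ N.choose 2 + 1 + (N - 1) / 4 ∧
      ((Av F x).Nonempty → F.card ≤ N.choose 2 + 1) := by
  have hxI := mem_Icc.1 hx
  have hN1 : 1 ≤ N := by omega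
  have hsplit : (F.filter (fun A => x ∈ A)).card + (Av F x).card = F.card := by
    unfold Av
    exact card_filter_add_card_filter_not (s := F) _
  have hthr : (F.filter (fun A => x ∈ A)).card ≤
      (F.filter (fun A => x ∈ A ∧ 3 ≤ A.card)).card +
        (F.filter (fun A => x ∈ A ∧ A.card ≤ 2)).card := by
    refine (card_le_card ?_).trans (card_union_le _ _)
    intro A hA
    rw [mem_filter] at hA
    rw [mem_union, mem_filter, mem_filter]
    rcases Nat.lt_or_ge A.card 3 with h | h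
    · exact Or.inr ⟨hA.1, hA.2, by omega⟩
    · exact Or.inl ⟨hA.1, hA.2, h⟩
  have hch := choose_two_succ N hN1
  have hb3 := big3 hF hx
  have key : (Av F x).Nonempty → F.card ≤ N.choose 2 + 1 := by
    intro hne
    have hsm := small hF hx hne
    have := c5_le hF hne
    omega
  refine ⟨?_, key⟩
  rcases (Av F x).eq_empty_or_nonempty with he | hne
  · rw [he, card_empty] at hsplit
    have hstar := thmStar thmSlot (thmScale0 thmPsi) N F x hN1 hF hx
    obtain ⟨hc1, hc2⟩ := thmC5 N F x hF hx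
    have : (if {x} ∈ F then 1 else 0) ≤ 1 := by split_ifs <;> simp
    omega
  · have := key hne
    omega

/-- Near-stars, for every `N`. -/
theorem nearAll {N : ℕ} {F : Finset (Finset ℤ)} {x : ℤ} (hF : Fam N F) (hx : x ∈ Icc 1 (N : ℤ))
    (hbig : ∀ B ∈ F, x ∉ B → 12 * (N - 1) ≤ 13 * B.card) :
    F.card ≤ N.choose 2 + 1 + (N - 1) / 4 ∧
      ((Av F x).Nonempty → F.card ≤ N.choose 2 + 1) := by
  have hxI := mem_Icc.1 hx
  have hN1 : 1 ≤ N := by omega
  rcases Nat.lt_or_ge (Av F x).card 2 with hlt | hge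
  · exact few hF hx (by omega)
  · have hne : (Av F x).Nonempty := card_pos.1 (by omega)
    have hN5 : 5 ≤ N := by
      by_contra hcon
      -- all members avoiding `x` are the complement of `x`
      obtain ⟨B, hB, B', hB', hBB⟩ := one_lt_card.1 (show 1 < (Av F x).card by omega)
      have full : ∀ C ∈ Av F x, C = (Icc 1 (N : ℤ)).erase x := by
        intro C hC
        apply eq_of_subset_of_card_le
        · intro y hy
          rw [mem_erase]
          exact ⟨fun h => (mem_Av.1 hC).2 (h ▸ hy), hF.sub C (mem_Av.1 hC).1 hy⟩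
        · rw [card_E hx]
          have := hbig C (mem_Av.1 hC).1 (mem_Av.1 hC).2
          omega
      exact hBB ((full B hB).trans (full B' hB').symm)
    have h := nearStar (k := (N - 1) / 13) ⟨hF, hx, hN5, by omega, fun B hB hxB => by
      have := hbig B hB hxB
      omega⟩ hne
    exact ⟨by omega, fun _ => h⟩

/-- Near-stars, for every `N`, in the language of the problem. -/
theorem nearNat (N : ℕ) (G : Finset (Finset ℕ)) (x : ℕ)
    (h1 : G ⊆ (Finset.Icc 1 N).powerset)
    (h2 : ∀ A ∈ G, ∀ B ∈ G, A ≠ B →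
      ∃ a d k : ℕ, A ∩ B = (Finset.range (k + 1)).image (fun i => a + i * d))
    (hx : x ∈ Finset.Icc 1 N) (hbig : ∀ B ∈ G, x ∉ B → 12 * (N - 1) ≤ 13 * B.card) :
    G.card ≤ N.choose 2 + 1 + (N - 1) / 4 ∧
      ((¬ ∃ y : ℕ, ∀ A ∈ G, y ∈ A) → G.card ≤ N.choose 2 + 1) := by
  have hx' : (x : ℤ) ∈ Icc 1 (N : ℤ) := by
    rw [mem_Icc] at hx ⊢
    constructor
    · exact_mod_cast hx.1
    · exact_mod_cast hx.2
  have h := nearAll (x := (x : ℤ)) (fam_mapF h1 h2) hx' (by
    intro B hB hxB
    obtain ⟨B', hB', rfl⟩ := mem_image.1 hB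
    rw [card_image_of_injective _ Nat.cast_injective]
    refine hbig B' hB' (fun hmem => hxB ?_)
    exact mem_image_of_mem _ hmem)
  rw [card_mapF] at h
  refine ⟨h.1, fun hns => h.2 ?_⟩
  by_contra hne
  rw [not_nonempty_iff_eq_empty] at hne
  apply hns
  refine ⟨x, fun A hA => ?_⟩
  by_contra hxA
  have : A.image (fun n : ℕ => (n : ℤ)) ∈ Av (mapF G) (x : ℤ) := by
    rw [mem_Av]
    refine ⟨mem_mapF.2 hA, ?_⟩
    intro hmem
    rw [mem_image] at hmem
    obtain ⟨m, hm, hmn⟩ := hmem
    have : m = x := by exact_mod_cast hmn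
    exact hxA (this ▸ hm)
  rw [hne] at this
  exact notMem_empty _ this

end Pool.Agent.Work.MP_1d0aa8_co.NS
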