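import Pool.Agent.Work.MP_1d0aa8_co.NS.Slot

/-!
# Non-starred families: the members avoiding the centre
-/

set_option autoImplicit false

namespace Pool.Agent.Work.MP_1d0aa8_co.NS

open Finset
open scoped Classical

/-- Points different from `x` which are missed by some member avoiding `x`. -/
noncomputable def Xm (N : ℕ) (F : Finset (Finset ℤ)) (x : ℤ) : Finset ℤ :=
  ((Icc 1 (N : ℤ)).erase x).filter (fun y => ∃ B ∈ Av F x, y ∉ B)

theorem mem_Xm {N : ℕ} {F : Finset (Finset ℤ)} {x y : ℤ} :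
    y ∈ Xm N F x ↔ (y ≠ x ∧ 1 ≤ y ∧ y ≤ N) ∧ ∃ B ∈ Av F x, y ∉ B := by
  unfold Xm
  rw [mem_filter, mem_erase, mem_Icc]

theorem mem_Av {F : Finset (Finset ℤ)} {x : ℤ} {B : Finset ℤ} :
    B ∈ Av F x ↔ B ∈ F ∧ x ∉ B := by
  unfold Av
  rw [mem_filter]

theorem card_E {N : ℕ} {x : ℤ} (hx : x ∈ Icc 1 (N : ℤ)) :
    ((Icc 1 (N : ℤ)).erase x).card = N - 1 := by
  rw [card_erase_of_mem hx, Int.card_Icc]
  omega

/-- The members with at most two elements through `x`, when some member avoids `x`. -/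
theorem small {N : ℕ} {F : Finset (Finset ℤ)} {x : ℤ} (hF : Fam N F) (hx : x ∈ Icc 1 (N : ℤ))
    (hne : (Av F x).Nonempty) :
    (F.filter (fun A => x ∈ A ∧ A.card ≤ 2)).card + (Xm N F x).card ≤ N - 1 := by
  have hsub : F.filter (fun A => x ∈ A ∧ A.card ≤ 2) ⊆
      (((Icc 1 (N : ℤ)).erase x) \ Xm N F x).image (fun y => ({x, y} : Finset ℤ)) := by
    intro A hA
    rw [mem_filter] at hA
    obtain ⟨hAF, hxA, hc⟩ := hA
    obtain ⟨B, hB⟩ := hne
    have hB' := mem_Av.1 hB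
    have hAB : A ≠ B := fun h => hB'.2 (h ▸ hxA)
    obtain ⟨y, hy⟩ := (hF.ap A hAF B hB'.1 hAB).1
    rw [mem_inter] at hy
    have hyx : y ≠ x := fun h => hB'.2 (h ▸ hy.2)
    have hAe : A = {x, y} := by
      symm
      apply eq_of_subset_of_card_le
      · intro z hz
        rw [mem_insert, mem_singleton] at hz
        rcases hz with rfl | rfl
        · exact hxA
        · exact hy.1
      · rw [card_pair (Ne.symm hyx)]
        exact hc
    rw [mem_image]
    refine ⟨y, ?_, hAe.symm⟩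
    rw [mem_sdiff, mem_erase]
    refine ⟨⟨hyx, hF.sub A hAF hy.1⟩, ?_⟩
    intro hyX
    rw [mem_Xm] at hyX
    obtain ⟨-, C, hC, hyC⟩ := hyX
    have hC' := mem_Av.1 hC
    have hAC : A ≠ C := fun h => hC'.2 (h ▸ hxA)
    obtain ⟨z, hz⟩ := (hF.ap A hAF C hC'.1 hAC).1
    rw [mem_inter, hAe, mem_insert, mem_singleton] at hz
    rcases hz with ⟨rfl | rfl, hzC⟩
    · exact hC'.2 hzC
    · exact hyC hzC
  have h1 := (card_le_card hsub).trans card_image_le
  have h2 : Xm N F x ⊆ (Icc 1 (N : ℤ)).erase x := filter_subset _ _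
  rw [card_sdiff_of_subset h2, card_E hx] at h1
  have h3 := card_le_card h2
  rw [card_E hx] at h3
  omega

/-- A set avoiding `x` meets a centred five term progression in at most two points. -/
theorem five_inter {x : ℤ} {d : ℕ} (hd : 1 ≤ d) {B : Finset ℤ} (hxB : x ∉ B)
    (h : APc (apset (x - 2 * d) d 4 ∩ B)) :
    ∃ y z : ℤ, y ≠ z ∧ y ∈ apset (x - 2 * d) d 4 ∧ z ∈ apset (x - 2 * d) d 4 ∧ y ≠ x ∧ z ≠ x ∧
      y ∉ B ∧ z ∉ B := by
  have hd0 : (0 : ℤ) < d := by exact_mod_cast hd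
  have m1 : x - 2 * d ∈ apset (x - 2 * d) d 4 := mem_apset.2 ⟨0, by norm_num, by push_cast; ring⟩
  have m2 : x - d ∈ apset (x - 2 * d) d 4 := mem_apset.2 ⟨1, by norm_num, by push_cast; ring⟩
  have m0 : x ∈ apset (x - 2 * d) d 4 := mem_apset.2 ⟨2, by norm_num, by push_cast; ring⟩
  have m3 : x + d ∈ apset (x - 2 * d) d 4 := mem_apset.2 ⟨3, by norm_num, by push_cast; ring⟩
  have m4 : x + 2 * d ∈ apset (x - 2 * d) d 4 :=
    mem_apset.2 ⟨4, by norm_num, by push_cast; ring⟩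
  -- three points of the progression in `B` whose hull contains `x` are impossible
  have key : ∀ p q r : ℤ, p ∈ apset (x - 2 * d) d 4 → q ∈ apset (x - 2 * d) d 4 →
      r ∈ apset (x - 2 * d) d 4 → p ∈ B → q ∈ B → r ∈ B → x ∉ hull p q r := by
    intro p q r hp hq hr hpB hqB hrB hx
    have := h.hull_sub (mem_inter.2 ⟨hp, hpB⟩) (mem_inter.2 ⟨hq, hqB⟩) (mem_inter.2 ⟨hr, hrB⟩) hx
    exact hxB (mem_inter.1 this).2
  have hull1 : x ∈ hull (x - 2 * d) (x - d) (x + d) := by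
    rw [mem_hull]
    refine ⟨⟨(min_le_left _ _).trans (by linarith), ?_⟩, ?_⟩
    · exact le_trans (by linarith) ((le_max_right _ _).trans (le_max_right _ _))
    · refine (Int.gcd_dvd_left _ _).trans ?_
      exact ⟨2, by ring⟩
  have hull2 : x ∈ hull (x - 2 * d) (x - d) (x + 2 * d) := by
    rw [mem_hull]
    refine ⟨⟨(min_le_left _ _).trans (by linarith), ?_⟩, ?_⟩
    · exact le_trans (by linarith) ((le_max_right _ _).trans (le_max_right _ _))
    · refine (Int.gcd_dvd_left _ _).trans ?_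
      exact ⟨2, by ring⟩
  have hull3 : x ∈ hull (x + 2 * d) (x + d) (x - d) := by
    rw [mem_hull]
    refine ⟨⟨?_, ?_⟩, ?_⟩
    · exact ((min_le_right _ _).trans (min_le_right _ _)).trans (by linarith)
    · exact le_trans (by linarith) (le_max_left _ _)
    · refine (Int.gcd_dvd_left _ _).trans ?_
      exact ⟨2, by ring⟩
  have hull4 : x ∈ hull (x + 2 * d) (x + d) (x - 2 * d) := by
    rw [mem_hull]
    refine ⟨⟨?_, ?_⟩, ?_⟩
    · exact ((min_le_right _ _).trans (min_le_right _ _)).trans (by linarith)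
    · exact le_trans (by linarith) (le_max_left _ _)
    · refine (Int.gcd_dvd_left _ _).trans ?_
      exact ⟨2, by ring⟩
  by_cases b1 : x - 2 * (d : ℤ) ∈ B
  · by_cases b2 : x - (d : ℤ) ∈ B
    · refine ⟨x + d, x + 2 * d, by linarith, m3, m4, by linarith, by linarith, ?_, ?_⟩
      · intro b3
        exact key _ _ _ m1 m2 m3 b1 b2 b3 hull1
      · intro b4
        exact key _ _ _ m1 m2 m4 b1 b2 b4 hull2
    · by_cases b3 : x + (d : ℤ) ∈ B
      · refine ⟨x - d, x + 2 * d, by linarith, m2, m4, by linarith, by linarith, b2, ?_⟩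
        intro b4
        exact key _ _ _ m4 m3 m1 b4 b3 b1 hull4
      · exact ⟨x - d, x + d, by linarith, m2, m3, by linarith, by linarith, b2, b3⟩
  · by_cases b2 : x - (d : ℤ) ∈ B
    · by_cases b3 : x + (d : ℤ) ∈ B
      · refine ⟨x - 2 * d, x + 2 * d, by linarith, m1, m4, by linarith, by linarith, b1, ?_⟩
        intro b4
        exact key _ _ _ m4 m3 m2 b4 b3 b2 hull3
      · exact ⟨x - 2 * d, x + d, by linarith, m1, m3, by linarith, by linarith, b1, b3⟩
    · exact ⟨x - 2 * d, x - d, by linarith, m1, m2, by linarith, by linarith, b1, b2⟩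

theorem mem_five {x y : ℤ} {d : ℕ} (hd : 1 ≤ d) (h : y ∈ apset (x - 2 * d) d 4) (hyx : y ≠ x) :
    d = (y - x).natAbs ∨ 2 * d = (y - x).natAbs := by
  rw [mem_apset] at h
  obtain ⟨i, hi, rfl⟩ := h
  have : i = 0 ∨ i = 1 ∨ i = 2 ∨ i = 3 ∨ i = 4 := by omega
  rcases this with rfl | rfl | rfl | rfl | rfl
  · right; push_cast; omega
  · left; push_cast; omega
  · exfalso; apply hyx; push_cast; ring
  · left; push_cast; omega
  · right; push_cast; omega

/-- There are at most as many centred five term members as missed points. -/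
theorem c5_le {N : ℕ} {F : Finset (Finset ℤ)} {x : ℤ} (hF : Fam N F)
    (hne : (Av F x).Nonempty) : (C5 F x).card ≤ (Xm N F x).card := by
  obtain ⟨B, hB⟩ := hne
  have hB' := mem_Av.1 hB
  -- every centred member misses `B` in two points
  have h1 : ∀ A ∈ C5 F x, 2 ≤ ((Xm N F x).filter (fun y => y ∈ A)).card := by
    intro A hA
    unfold C5 at hA
    rw [mem_filter] at hA
    obtain ⟨hAF, d, hd, rfl⟩ := hA
    have hxA : x ∈ apset (x - 2 * (d : ℤ)) d 4 := by
      rw [mem_apset]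
      exact ⟨2, by norm_num, by push_cast; ring⟩
    have hne : apset (x - 2 * (d : ℤ)) d 4 ≠ B := fun h => hB'.2 (h ▸ hxA)
    obtain ⟨y, z, hyz, hy, hz, hyx, hzx, hyB, hzB⟩ :=
      five_inter hd hB'.2 (hF.ap _ hAF B hB'.1 hne)
    have hy1 := mem_Icc.1 (hF.sub _ hAF hy)
    have hz1 := mem_Icc.1 (hF.sub _ hAF hz)
    have : ({y, z} : Finset ℤ) ⊆
        (Xm N F x).filter (fun w => w ∈ apset (x - 2 * (d : ℤ)) d 4) := by
      intro w hw
      rw [mem_insert, mem_singleton] at hw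
      rw [mem_filter, mem_Xm]
      rcases hw with rfl | rfl
      · exact ⟨⟨⟨hyx, hy1⟩, B, hB, hyB⟩, hy⟩
      · exact ⟨⟨⟨hzx, hz1⟩, B, hB, hzB⟩, hz⟩
    calc 2 = ({y, z} : Finset ℤ).card := (card_pair hyz).symm
      _ ≤ _ := card_le_card this
  -- every missed point is in at most two of them
  have h2 : ∀ y ∈ Xm N F x, ((C5 F x).filter (fun A => y ∈ A)).card ≤ 2 := by
    intro y hy
    rw [mem_Xm] at hy
    have hsub : (C5 F x).filter (fun A => y ∈ A) ⊆
        ({(y - x).natAbs, (y - x).natAbs / 2} : Finset ℕ).image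
          (fun d : ℕ => apset (x - 2 * (d : ℤ)) d 4) := by
      intro A hA
      rw [mem_filter] at hA
      obtain ⟨hA, hyA⟩ := hA
      unfold C5 at hA
      rw [mem_filter] at hA
      obtain ⟨-, d, hd, rfl⟩ := hA
      rw [mem_image]
      refine ⟨d, ?_, rfl⟩
      rw [mem_insert, mem_singleton]
      rcases mem_five hd hyA hy.1.1 with h | h
      · exact Or.inl h
      · right; omega
    refine (card_le_card hsub).trans (card_image_le.trans ?_)
    exact card_le_two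
  have h3 : 2 * (C5 F x).card ≤ ∑ A ∈ C5 F x, ((Xm N F x).filter (fun y => y ∈ A)).card := by
    rw [mul_comm, ← smul_eq_mul]
    exact card_nsmul_le_sum _ _ _ h1
  have h4 : ∑ A ∈ C5 F x, ((Xm N F x).filter (fun y => y ∈ A)).card =
      ∑ y ∈ Xm N F x, ((C5 F x).filter (fun A => y ∈ A)).card := by
    simp_rw [card_filter]
    exact sum_comm
  have h5 : ∑ y ∈ Xm N F x, ((C5 F x).filter (fun A => y ∈ A)).card ≤ (Xm N F x).card * 2 := by
    rw [← smul_eq_mul]
    exact sum_le_card_nsmul _ _ _ h2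
  omega

/-! ### At least two members avoid `x` -/

/-- The near-star hypothesis. -/
structure NearS (N : ℕ) (F : Finset (Finset ℤ)) (x : ℤ) (k : ℕ) : Prop where
  fam : Fam N F
  hx : x ∈ Icc 1 (N : ℤ)
  hN : 5 ≤ N
  hk : 13 * k + 1 ≤ N
  big : ∀ B ∈ F, x ∉ B → N ≤ B.card + 1 + k

section near

variable {N : ℕ} {F : Finset (Finset ℤ)} {x : ℤ} {k : ℕ}

theorem NearS.sub (c : NearS N F x k) {B : Finset ℤ} (hB : B ∈ Av F x) :
    B ⊆ (Icc 1 (N : ℤ)).erase x := by
  intro y hy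
  rw [mem_erase]
  exact ⟨fun h => (mem_Av.1 hB).2 (h ▸ hy), c.fam.sub B (mem_Av.1 hB).1 hy⟩

theorem NearS.inter_card (c : NearS N F x k) {B B' : Finset ℤ} (hB : B ∈ Av F x)
    (hB' : B' ∈ Av F x) : N ≤ (B ∩ B').card + 1 + 2 * k := by
  have h1 := card_union_add_card_inter B B'
  have h2' : (B ∪ B').card ≤ N - 1 := by
    rw [← card_E c.hx]
    exact card_le_card (union_subset (c.sub hB) (c.sub hB'))
  have h3 := c.big B (mem_Av.1 hB).1 (mem_Av.1 hB).2
  have h4 := c.big B' (mem_Av.1 hB').1 (mem_Av.1 hB').2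
  have := c.hN
  omega

open ItEXTRAS in
theorem NearS.conn (c : NearS N F x k) {B B' : Finset ℤ} (hB : B ∈ Av F x)
    (hB' : B' ∈ Av F x) (hne : B ≠ B') {u v y : ℤ} (hu : u ∈ B ∩ B') (hv : v ∈ B ∩ B')
    (h1 : u ≤ y) (h2 : y ≤ v) : y ∈ B ∩ B' := by
  obtain ⟨t, ht, ht1⟩ := exists_consec N (B ∩ B')
    (inter_subset_left.trans (c.fam.sub B (mem_Av.1 hB).1)) (by
      have h3 := c.inter_card hB hB'
      have h4 := c.hk
      have h5 := c.hN
      omega)
  exact ordConn (B ∩ B') (c.fam.ap B (mem_Av.1 hB).1 B' (mem_Av.1 hB').1 hne) t ht ht1 u v y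
    hu hv h1 h2

/-- All pairwise intersections are on the same side of `x`. -/
theorem NearS.side (c : NearS N F x k) :
    (∀ B ∈ Av F x, ∀ B' ∈ Av F x, B ≠ B' → ∀ y ∈ B ∩ B', x < y) ∨
      (∀ B ∈ Av F x, ∀ B' ∈ Av F x, B ≠ B' → ∀ y ∈ B ∩ B', y < x) := by
  by_contra hcon
  push Not at hcon
  obtain ⟨⟨B1, hB1, B2, hB2, hne, y, hy, hyx⟩, B3, hB3, B4, hB4, hne', z, hz, hzx⟩ := hcon
  have hxy : x ∉ B1 ∩ B2 := fun h => (mem_Av.1 hB1).2 (mem_inter.1 h).1
  have hxz : x ∉ B3 ∩ B4 := fun h => (mem_Av.1 hB3).2 (mem_inter.1 h).1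
  have hs1 : B1 ∩ B2 ⊆ Icc 1 (x - 1) := by
    intro w hw
    have h1 := mem_Icc.1 (c.fam.sub B1 (mem_Av.1 hB1).1 (mem_inter.1 hw).1)
    rw [mem_Icc]
    refine ⟨h1.1, ?_⟩
    by_contra hcon
    exact hxy (c.conn hB1 hB2 hne hy hw hyx (by omega))
  have hs2 : B3 ∩ B4 ⊆ Icc (x + 1) (N : ℤ) := by
    intro w hw
    have h1 := mem_Icc.1 (c.fam.sub B3 (mem_Av.1 hB3).1 (mem_inter.1 hw).1)
    rw [mem_Icc]
    refine ⟨?_, h1.2⟩
    by_contra hcon
    exact hxz (c.conn hB3 hB4 hne' hw hz (by omega) hzx)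
  have c1 := card_le_card hs1
  have c2 := card_le_card hs2
  rw [Int.card_Icc] at c1 c2
  have i1 := c.inter_card hB1 hB2
  have i2 := c.inter_card hB3 hB4
  have h3 := c.hN
  have h4 := c.hk
  have h5 := mem_Icc.1 c.hx
  omega

/-- With at least two members avoiding `x` there are many missed points. -/
theorem NearS.missed (c : NearS N F x k) (h2 : 2 ≤ (Av F x).card) :
    2 * (C5 F x).card ≤ (Xm N F x).card ∧ 1 ≤ (Xm N F x).card := by
  obtain ⟨B, hB, B', hB', hne⟩ := one_lt_card.1 (show 1 < (Av F x).card by omega)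
  obtain ⟨hc1, hc2⟩ := thmC5 N F x c.fam c.hx
  have hxI := mem_Icc.1 c.hx
  constructor
  · rcases c.side with hs | hs
    · refine hc1.trans ?_
      have : Icc 1 (x - 1) ⊆ Xm N F x := by
        intro y hy
        rw [mem_Icc] at hy
        rw [mem_Xm]
        refine ⟨⟨by omega, hy.1, by omega⟩, ?_⟩
        by_contra hcon
        push Not at hcon
        have := hs B hB B' hB' hne y (mem_inter.2 ⟨hcon B hB, hcon B' hB'⟩)
        omega
      have h3 := card_le_card this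
      rw [Int.card_Icc] at h3
      have e : (x - 1 + 1 - 1).toNat = (x - 1).toNat := by congr 1; ring
      rw [e] at h3
      exact h3
    · refine hc2.trans ?_
      have : Icc (x + 1) (N : ℤ) ⊆ Xm N F x := by
        intro y hy
        rw [mem_Icc] at hy
        rw [mem_Xm]
        refine ⟨⟨by omega, by omega, hy.2⟩, ?_⟩
        by_contra hcon
        push Not at hcon
        have := hs B hB B' hB' hne y (mem_inter.2 ⟨hcon B hB, hcon B' hB'⟩)
        omega
      have h3 := card_le_card this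
      rw [Int.card_Icc] at h3
      have e : ((N : ℤ) + 1 - (x + 1)).toNat = ((N : ℤ) - x).toNat := by congr 1; ring
      rw [e] at h3
      exact h3
  · rw [Nat.succ_le_iff, card_pos]
    by_contra hcon
    rw [not_nonempty_iff_eq_empty] at hcon
    have hfull : ∀ C ∈ Av F x, C = (Icc 1 (N : ℤ)).erase x := by
      intro C hC
      apply Subset.antisymm (c.sub hC)
      intro y hy
      rw [mem_erase, mem_Icc] at hy
      by_contra hyC
      have : y ∈ Xm N F x := mem_Xm.2 ⟨hy, C, hC, hyC⟩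
      rw [hcon] at this
      simp at this
    exact hne ((hfull B hB).trans (hfull B' hB').symm)

/-- With at least three members avoiding `x`, the two one-sided three term progressions at `x` are
not both members. -/
theorem NearS.no_both (c : NearS N F x k) (h3 : 3 ≤ (Av F x).card) {d : ℕ} (hd : 1 ≤ d) :
    ¬ (apset (x - 2 * d) d 2 ∈ F ∧ apset x d 2 ∈ F) := by
  rintro ⟨h1, h2⟩
  have hd0 : (0 : ℤ) < d := by exact_mod_cast hd
  obtain ⟨B1, hB1, B2, hB2, B3, hB3, h12, h13, h23⟩ :=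
    two_lt_card.1 (show 2 < (Av F x).card by omega)
  have xm : x ∈ apset (x - 2 * (d : ℤ)) d 2 := mem_apset.2 ⟨2, le_rfl, by push_cast; ring⟩
  have xm' : x ∈ apset x d 2 := mem_apset.2 ⟨0, by norm_num, by push_cast; ring⟩
  have hl : ∀ B ∈ Av F x, x - 2 * (d : ℤ) ∈ B ∨ x - (d : ℤ) ∈ B := by
    intro B hB
    have hB' := mem_Av.1 hB
    obtain ⟨y, hy⟩ := (c.fam.ap _ h1 B hB'.1 (fun h => hB'.2 (h ▸ xm))).1
    rw [mem_inter, mem_apset] at hy
    obtain ⟨⟨i, hi, rfl⟩, hyB⟩ := hy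
    have : i = 0 ∨ i = 1 ∨ i = 2 := by omega
    rcases this with rfl | rfl | rfl
    · left; simpa using hyB
    · right
      have e : x - 2 * (d : ℤ) + ((1 : ℕ) : ℤ) * d = x - d := by push_cast; ring
      rwa [e] at hyB
    · exfalso
      have e : x - 2 * (d : ℤ) + ((2 : ℕ) : ℤ) * d = x := by push_cast; ring
      rw [e] at hyB
      exact hB'.2 hyB
  have hr : ∀ B ∈ Av F x, x + 2 * (d : ℤ) ∈ B ∨ x + (d : ℤ) ∈ B := by
    intro B hB
    have hB' := mem_Av.1 hB
    obtain ⟨y, hy⟩ := (c.fam.ap _ h2 B hB'.1 (fun h => hB'.2 (h ▸ xm'))).1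
    rw [mem_inter, mem_apset] at hy
    obtain ⟨⟨i, hi, rfl⟩, hyB⟩ := hy
    have : i = 0 ∨ i = 1 ∨ i = 2 := by omega
    rcases this with rfl | rfl | rfl
    · exfalso
      have e : x + ((0 : ℕ) : ℤ) * d = x := by push_cast; ring
      rw [e] at hyB
      exact hB'.2 hyB
    · right
      have e : x + ((1 : ℕ) : ℤ) * d = x + d := by push_cast; ring
      rwa [e] at hyB
    · left
      have e : x + ((2 : ℕ) : ℤ) * d = x + 2 * d := by push_cast; ring
      rwa [e] at hyB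
  -- two of three sets share a point of a two element set
  have pig : ∀ p q : ℤ, (∀ B ∈ Av F x, p ∈ B ∨ q ∈ B) →
      ∃ C ∈ Av F x, ∃ D ∈ Av F x, C ≠ D ∧ (p ∈ C ∩ D ∨ q ∈ C ∩ D) := by
    intro p q hpq
    rcases hpq B1 hB1 with a1 | a1
    · rcases hpq B2 hB2 with a2 | a2
      · exact ⟨B1, hB1, B2, hB2, h12, Or.inl (mem_inter.2 ⟨a1, a2⟩)⟩
      · rcases hpq B3 hB3 with a3 | a3
        · exact ⟨B1, hB1, B3, hB3, h13, Or.inl (mem_inter.2 ⟨a1, a3⟩)⟩
        · exact ⟨B2, hB2, B3, hB3, h23, Or.inr (mem_inter.2 ⟨a2, a3⟩)⟩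
    · rcases hpq B2 hB2 with a2 | a2
      · rcases hpq B3 hB3 with a3 | a3
        · exact ⟨B2, hB2, B3, hB3, h23, Or.inl (mem_inter.2 ⟨a2, a3⟩)⟩
        · exact ⟨B1, hB1, B3, hB3, h13, Or.inr (mem_inter.2 ⟨a1, a3⟩)⟩
      · exact ⟨B1, hB1, B2, hB2, h12, Or.inr (mem_inter.2 ⟨a1, a2⟩)⟩
  rcases c.side with hs | hs
  · obtain ⟨C, hC, D, hD, hne, h | h⟩ := pig _ _ hl
    · have := hs C hC D hD hne _ h
      linarith
    · have := hs C hC D hD hne _ h
      linarith
  · obtain ⟨C, hC, D, hD, hne, h | h⟩ := pig _ _ hr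
    · have := hs C hC D hD hne _ h
      linarith
    · have := hs C hC D hD hne _ h
      linarith

open ItEXTRAS in
/-- A member avoiding `x` which is not an interval has a private point. -/
theorem NearS.priv (c : NearS N F x k) (h2 : 2 ≤ (Av F x).card) {B : Finset ℤ}
    (hB : B ∈ Av F x) (hBS : B ∉ Sd F x 1) : ∃ p ∈ B, ∀ B' ∈ Av F x, B' ≠ B → p ∉ B' := by
  by_contra hcon
  push Not at hcon
  refine hBS ?_
  have hN5 := c.hN
  have hk := c.hk
  have hcB := c.big B (mem_Av.1 hB).1 (mem_Av.1 hB).2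
  obtain ⟨a, j, hj, hBe⟩ := eq_apset B (by omega) (by
    intro u hu v hv y huy hyv
    obtain ⟨B1, hB1, hne1, hu1⟩ := hcon u hu
    obtain ⟨B2, hB2, hne2, hv2⟩ := hcon v hv
    -- a common point of `B ∩ B1` and `B ∩ B2`
    have h1 := c.inter_card hB hB1
    have h2' := c.inter_card hB hB2
    obtain ⟨z, hz⟩ : ((B ∩ B1) ∩ (B ∩ B2)).Nonempty := by
      rw [← card_pos]
      have h3 := card_union_add_card_inter (B ∩ B1) (B ∩ B2)
      have h4 : ((B ∩ B1) ∪ (B ∩ B2)).card ≤ N - 1 := by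
        rw [← card_E c.hx]
        refine card_le_card (union_subset ?_ ?_)
        · exact inter_subset_left.trans (c.sub hB)
        · exact inter_subset_left.trans (c.sub hB)
      omega
    rw [mem_inter] at hz
    rcases le_total y z with hyz | hzy
    · exact (mem_inter.1 (c.conn hB hB1 hne1.symm (mem_inter.2 ⟨hu, hu1⟩) hz.1 huy hyz)).1
    · exact (mem_inter.1 (c.conn hB hB2 hne2.symm hz.2 (mem_inter.2 ⟨hv, hv2⟩) hzy hyv)).1)
  unfold Sd Pd
  rw [mem_filter, mem_filter]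
  exact ⟨⟨(mem_Av.1 hB).1, a, j, hj, hBe⟩, (mem_Av.1 hB).2⟩

/-- The private points: a set `T` of missed points, one for every member avoiding `x` which is not
an interval, each contained in exactly one member avoiding `x`, which is not an interval. -/
theorem NearS.privSet (c : NearS N F x k) (h2 : 2 ≤ (Av F x).card) :
    ∃ T : Finset ℤ, T ⊆ Xm N F x ∧ T.card = ((Av F x).filter (fun A => A ∉ Sd F x 1)).card ∧
      ∀ p ∈ T, ∀ A ∈ Sd F x 1, p ∉ A := by
  have h := fun (B : Finset ℤ) (hB : B ∈ Av F x) (hBS : B ∉ Sd F x 1) => c.priv h2 hB hBS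
  choose! p hp1 hp2 using h
  set E := (Av F x).filter (fun A => A ∉ Sd F x 1) with hE
  have hEm : ∀ B ∈ E, B ∈ Av F x ∧ B ∉ Sd F x 1 := fun B hB => mem_filter.1 hB
  refine ⟨E.image p, ?_, ?_, ?_⟩
  · intro y hy
    rw [mem_image] at hy
    obtain ⟨B, hB, rfl⟩ := hy
    obtain ⟨hBA, hBS⟩ := hEm B hB
    have h3 := c.sub hBA (hp1 B hBA hBS)
    rw [mem_erase, mem_Icc] at h3
    rw [mem_Xm]
    refine ⟨h3, ?_⟩
    obtain ⟨C, hC, hCne⟩ := exists_mem_ne (show 1 < (Av F x).card by omega) B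
    exact ⟨C, hC, hp2 B hBA hBS C hC hCne⟩
  · apply card_image_of_injOn
    intro B hB B' hB' hbb
    rw [mem_coe] at hB hB'
    by_contra hne
    have h4 := hp2 B (hEm B hB).1 (hEm B hB).2 B' (hEm B' hB').1 (fun h => hne h.symm)
    rw [hbb] at h4
    exact h4 (hp1 B' (hEm B' hB').1 (hEm B' hB').2)
  · intro y hy A hA
    rw [mem_image] at hy
    obtain ⟨B, hB, rfl⟩ := hy
    have hAA : A ∈ Av F x := by
      unfold Sd at hA
      rw [mem_filter] at hA
      exact mem_Av.2 ⟨(Pd_mem.1 hA.1).1, hA.2⟩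
    exact hp2 B (hEm B hB).1 (hEm B hB).2 A hAA (fun h => (hEm B hB).2 (h ▸ hA))

end near

end Pool.Agent.Work.MP_1d0aa8_co.NS
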