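import Pool.Agent.Work.MP_1d0aa8_co.NS.Avoid
import Pool.Agent.Work.MP_1d0aa8_co.ItT1

/-!
# Non-starred families: the number of members avoiding the centre
-/

set_option autoImplicit false

namespace Pool.Agent.Work.MP_1d0aa8_co.NS

open Finset
open scoped Classical
open TOne

section count

variable {N : ℕ} {F : Finset (Finset ℤ)} {x : ℤ}

/-- An interval avoiding `x` on its right. -/
theorem sd_facts (hF : Fam N F) (hright : ∀ A ∈ Sd F x 1, ∀ y ∈ A, x < y) {A : Finset ℤ}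
    (hA : A ∈ Sd F x 1) :
    x < lo A ∧ lo A ≤ hi A ∧ hi A ≤ N ∧ (∀ y : ℤ, y ∈ A ↔ lo A ≤ y ∧ y ≤ hi A) := by
  obtain ⟨hAF, -, hne, hc⟩ := mem_Sd hA
  refine ⟨hright A hA _ (lo_mem hne), lo_le (hi_mem hne),
    (mem_Icc.1 (hF.sub A hAF (hi_mem hne))).2, fun y => ⟨fun hy => ⟨lo_le hy, le_hi hy⟩, ?_⟩⟩
  rintro ⟨h1, h2⟩
  exact hc _ (lo_mem hne) _ (hi_mem hne) y h1 h2

theorem sd_ext {A B : Finset ℤ} (hA : ∀ y : ℤ, y ∈ A ↔ lo A ≤ y ∧ y ≤ hi A)
    (hB : ∀ y : ℤ, y ∈ B ↔ lo B ≤ y ∧ y ≤ hi B) (h1 : lo A = lo B) (h2 : hi A = hi B) :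
    A = B := by
  ext y
  rw [hA, hB, h1, h2]

theorem sd_meet (hF : Fam N F) (hright : ∀ A ∈ Sd F x 1, ∀ y ∈ A, x < y) {A B : Finset ℤ}
    (hA : A ∈ Sd F x 1) (hB : B ∈ Sd F x 1) : lo A ≤ hi B := by
  by_cases hAB : A = B
  · rw [hAB]
    exact (sd_facts hF hright hB).2.1
  · obtain ⟨y, hy⟩ := (hF.ap A (mem_Sd hA).1 B (mem_Sd hB).1 hAB).1
    rw [mem_inter] at hy
    exact (lo_le hy.1).trans (le_hi hy.2)

/-- `|R| ≤ 1 + |X| + |Forb|`. -/
theorem count (hF : Fam N F) (hright : ∀ A ∈ Sd F x 1, ∀ y ∈ A, x < y) (hx : x ∈ Icc 1 (N : ℤ))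
    (T : Finset ℤ) (hTX : T ⊆ Xm N F x)
    (hTc : T.card = ((Av F x).filter (fun A => A ∉ Sd F x 1)).card)
    (hTS : ∀ p ∈ T, ∀ A ∈ Sd F x 1, p ∉ A) :
    (Av F x).card ≤ 1 + (Xm N F x).card + (Forb N F x).card := by
  have hxI := mem_Icc.1 hx
  set S := Sd F x 1 with hS
  set Sp := S.filter (fun A => x + 1 < lo A ∧ hi A < N) with hSp
  set Sq := S.filter (fun A => ¬ (x + 1 < lo A ∧ hi A < N)) with hSq
  set Se := Sq.filter (fun A => lo A = x + 1 ∧ hi A = N) with hSe
  set Ss := Sq.filter (fun A => ¬ (lo A = x + 1 ∧ hi A = N)) with hSs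
  have hc1 : Sp.card + Sq.card = S.card := card_filter_add_card_filter_not (s := S) _
  have hc2 : Se.card + Ss.card = Sq.card := card_filter_add_card_filter_not (s := Sq) _
  have fct := fun (A : Finset ℤ) (hA : A ∈ S) => sd_facts hF hright (A := A) hA
  -- pairs
  have hp : Sp.card ≤ (Forb N F x).card := by
    refine card_le_card_of_injOn (fun A => (lo A - 1, hi A + 1)) ?_ ?_
    · intro A hA
      rw [mem_coe, hSp, mem_filter] at hA
      obtain ⟨hAS, h1, h2⟩ := hA
      obtain ⟨f1, f2, f3, f4⟩ := fct A hAS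
      rw [mem_coe]
      unfold Forb Prs
      rw [mem_filter, mem_filter, mem_product, mem_Icc, mem_Icc]
      refine ⟨⟨⟨⟨?_, ?_⟩, ?_, ?_⟩, ?_, ?_, ?_⟩, ?_, A, hAS, ?_⟩
      · dsimp only; omega
      · dsimp only; omega
      · dsimp only; omega
      · dsimp only; omega
      · dsimp only; omega
      · dsimp only; omega
      · dsimp only; omega
      · dsimp only; omega
      · intro y hy
        have := (f4 y).1 hy
        dsimp only
        omega
    · intro A hA B hB hAB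
      rw [mem_coe, hSp, mem_filter] at hA hB
      simp only [Prod.mk.injEq] at hAB
      exact sd_ext (fct A hA.1).2.2.2 (fct B hB.1).2.2.2 (by omega) (by omega)
  -- the full interval
  have he : Se.card ≤ 1 := by
    rw [card_le_one]
    intro A hA B hB
    rw [hSe, mem_filter, hSq, mem_filter] at hA hB
    exact sd_ext (fct A hA.1.1).2.2.2 (fct B hB.1.1).2.2.2 (by omega) (by omega)
  -- single points
  set h : Finset ℤ → ℤ := fun A => if lo A = x + 1 then hi A + 1 else lo A - 1 with hh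
  have hcase : ∀ A ∈ Ss, A ∈ S ∧ ((lo A = x + 1 ∧ hi A < N ∧ h A = hi A + 1) ∨
      (x + 1 < lo A ∧ hi A = N ∧ h A = lo A - 1)) := by
    intro A hA
    rw [hSs, mem_filter, hSq, mem_filter] at hA
    obtain ⟨⟨hAS, h1⟩, h2⟩ := hA
    obtain ⟨f1, f2, f3, f4⟩ := fct A hAS
    refine ⟨hAS, ?_⟩
    by_cases hl : lo A = x + 1
    · left
      refine ⟨hl, ?_, ?_⟩
      · rcases f3.lt_or_eq with h3 | h3
        · exact h3
        · exact absurd ⟨hl, h3⟩ h2
      · rw [hh]; dsimp only; rw [if_pos hl]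
    · right
      have h3 : x + 1 < lo A := by omega
      refine ⟨h3, ?_, ?_⟩
      · rcases f3.lt_or_eq with h4 | h4
        · exact absurd ⟨h3, h4⟩ h1
        · exact h4
      · rw [hh]; dsimp only; rw [if_neg hl]
  have hinj : Set.InjOn h (Ss : Set (Finset ℤ)) := by
    intro A hA B hB hAB
    rw [mem_coe] at hA hB
    obtain ⟨hAS, hA'⟩ := hcase A hA
    obtain ⟨hBS, hB'⟩ := hcase B hB
    have m1 := sd_meet hF hright hAS hBS
    have m2 := sd_meet hF hright hBS hAS
    refine sd_ext (fct A hAS).2.2.2 (fct B hBS).2.2.2 ?_ ?_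
    · rcases hA' with hA' | hA' <;> rcases hB' with hB' | hB' <;> omega
    · rcases hA' with hA' | hA' <;> rcases hB' with hB' | hB' <;> omega
  have himg : (Ss.image h).card = Ss.card := card_image_of_injOn hinj
  have hmemS : ∀ e ∈ Ss.image h, x < e ∧ e ≤ N ∧ ∃ A ∈ S, e ∉ A := by
    intro e he
    rw [mem_image] at he
    obtain ⟨A, hA, rfl⟩ := he
    obtain ⟨hAS, hA'⟩ := hcase A hA
    obtain ⟨f1, f2, f3, f4⟩ := fct A hAS
    refine ⟨?_, ?_, A, hAS, ?_⟩
    · rcases hA' with hA' | hA' <;> omega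
    · rcases hA' with hA' | hA' <;> omega
    · rw [f4]
      rcases hA' with hA' | hA' <;> omega
  have hsubX : Ss.image h ⊆ Xm N F x := by
    intro e he
    obtain ⟨h1, h2, A, hAS, h3⟩ := hmemS e he
    rw [mem_Xm]
    refine ⟨⟨by omega, by omega, h2⟩, A, ?_, h3⟩
    rw [mem_Av]
    exact ⟨(mem_Sd hAS).1, (mem_Sd hAS).2.1⟩
  -- the common points
  have hcom : (T ∩ Ss.image h).card ≤ 1 := by
    have hlt : ∀ e ∈ T ∩ Ss.image h, ∀ e' ∈ T ∩ Ss.image h, ¬ e < e' := by
      intro e he e' he' hee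
      rw [mem_inter, mem_image] at he he'
      obtain ⟨heT, A, hA, rfl⟩ := he
      obtain ⟨heT', B, hB, rfl⟩ := he'
      obtain ⟨hAS, hA'⟩ := hcase A hA
      obtain ⟨hBS, hB'⟩ := hcase B hB
      have m1 := sd_meet hF hright hAS hBS
      have m2 := sd_meet hF hright hBS hAS
      obtain ⟨f1, f2, f3, f4⟩ := fct A hAS
      obtain ⟨g1, g2, g3, g4⟩ := fct B hBS
      have n1 := hTS _ heT B hBS
      have n2 := hTS _ heT' A hAS
      rw [g4] at n1
      rw [f4] at n2
      rcases hA' with hA' | hA' <;> rcases hB' with hB' | hB' <;> omega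
    rw [card_le_one]
    intro e he e' he'
    exact le_antisymm (not_lt.1 (hlt e' he' e he)) (not_lt.1 (hlt e he e' he'))
  have hor : (T ∩ Ss.image h).card = 0 ∨ Se.card = 0 := by
    by_contra hcon
    push Not at hcon
    obtain ⟨e, he⟩ := card_pos.1 (Nat.pos_of_ne_zero hcon.1)
    obtain ⟨A, hA⟩ := card_pos.1 (Nat.pos_of_ne_zero hcon.2)
    rw [mem_inter] at he
    rw [hSe, mem_filter, hSq, mem_filter] at hA
    obtain ⟨h1, h2, -⟩ := hmemS e he.2
    have h3 := hTS e he.1 A hA.1.1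
    rw [(fct A hA.1.1).2.2.2] at h3
    omega
  have hun := card_union_add_card_inter T (Ss.image h)
  have hunX := card_le_card (union_subset hTX hsubX)
  have hAvs : ((Av F x).filter (fun A => A ∈ S)).card +
      ((Av F x).filter (fun A => A ∉ S)).card = (Av F x).card :=
    card_filter_add_card_filter_not (s := Av F x) _
  have hle : ((Av F x).filter (fun A => A ∈ S)).card ≤ S.card := by
    apply card_le_card
    intro A hA
    rw [mem_filter] at hA
    exact hA.2
  omega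

end count

end Pool.Agent.Work.MP_1d0aa8_co.NS
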