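import Pool.Agent.Work.MP_1d0aa8_co.NS.Slot
import Pool.Agent.Work.MP_1d0aa8_co.ItPHI

/-!
# Non-starred families: one more slot at every scale
-/

set_option autoImplicit false

namespace Pool.Agent.Work.MP_1d0aa8_co.NS

open Finset
open scoped Classical
open Scale

/-- The index pairs of `YS`. -/
noncomputable def Yi (N : ℕ) (F : Finset (Finset ℤ)) (x : ℤ) (d : ℕ) : Finset (ℕ × ℕ) :=
  ((range (N + 1)) ×ˢ (range (N + 1))).filter
    (fun q => apset (x - q.1 * d) d (q.1 + q.2) ∈ F ∧ 2 ≤ Nat.gcd q.1 q.2)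

theorem YS_card_le {N : ℕ} {F : Finset (Finset ℤ)} (hF : Fam N F) {x : ℤ}
    (hx : x ∈ Icc 1 (N : ℤ)) {d : ℕ} (hd : 1 ≤ d) : (YS F x d).card ≤ (Yi N F x d).card := by
  have hsub : YS F x d ⊆ (Yi N F x d).image (fun q => apset (x - q.1 * d) d (q.1 + q.2)) := by
    intro A hA
    unfold YS at hA
    rw [mem_filter] at hA
    obtain ⟨hAF, i, j, rfl, hg⟩ := hA
    rw [mem_image]
    refine ⟨(i, j), ?_, rfl⟩
    unfold Yi
    rw [mem_filter, mem_product, mem_range, mem_range]
    obtain ⟨h1, h2⟩ := bounds hF hAF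
    rw [mem_Icc] at hx
    have e1 : (i : ℤ) ≤ i * d := by
      have : (1 : ℤ) ≤ d := by exact_mod_cast hd
      nlinarith
    have e2 : (j : ℤ) ≤ j * d := by
      have : (1 : ℤ) ≤ d := by exact_mod_cast hd
      nlinarith
    refine ⟨⟨?_, ?_⟩, hAF, hg⟩
    · simp only; omega
    · simp only; omega
  exact (card_le_card hsub).trans card_image_le

/-- The count of `Yi` by coprime pairs. -/
theorem Yi_phi {N : ℕ} {F : Finset (Finset ℤ)} {x : ℤ} {d : ℕ} (h1 : SPsi)
    (h20 : ¬ (apset (x - 2 * d) d 2 ∈ F ∧ apset x d 2 ∈ F)) (m n : ℕ)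
    (hm : ∀ q ∈ Yi N F x d, q.1 ≤ m) (hn : ∀ q ∈ Yi N F x d, q.2 ≤ n) :
    (Yi N F x d).card ≤ Phi m + Phi n := by
  have hmem : ∀ q ∈ Yi N F x d, apset (x - q.1 * d) d (q.1 + q.2) ∈ F ∧ 2 ≤ Nat.gcd q.1 q.2 := by
    intro q hq
    unfold Yi at hq
    rw [mem_filter] at hq
    exact hq.2
  by_cases h22 : ((2, 2) : ℕ × ℕ) ∈ Yi N F x d
  · have hm2 : 2 ≤ m := hm _ h22
    have hn2 : 2 ≤ n := hn _ h22
    have hor : ((2, 0) : ℕ × ℕ) ∉ Yi N F x d ∨ ((0, 2) : ℕ × ℕ) ∉ Yi N F x d := by
      by_contra hcon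
      push Not at hcon
      obtain ⟨c1, c2⟩ := hcon
      have e1 := (hmem _ c1).1
      have e2 := (hmem _ c2).1
      apply h20
      constructor
      · have : apset (x - 2 * (d : ℤ)) d 2 = apset (x - ((2 : ℕ) : ℤ) * (d : ℤ)) d (2 + 0) := by
          norm_num
        rw [this]; exact e1
      · have : apset x d 2 = apset (x - ((0 : ℕ) : ℤ) * (d : ℤ)) d (0 + 2) := by
          norm_num
        rw [this]; exact e2
    have hce : ((Yi N F x d).erase (2, 2)).card + 1 = (Yi N F x d).card := card_erase_add_one h22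
    rcases hor with h | h
    · have h' : ((2, 0) : ℕ × ℕ) ∉ (Yi N F x d).erase (2, 2) := fun hc => h (mem_erase.1 hc).2
      have := h1 (insert ((2, 0) : ℕ × ℕ) ((Yi N F x d).erase (2, 2))) m n (by
        intro p hp
        rw [mem_insert] at hp
        rcases hp with rfl | hp
        · refine ⟨hm2, Nat.zero_le _, by decide, by decide⟩
        · rw [mem_erase] at hp
          exact ⟨hm p hp.2, hn p hp.2, (hmem p hp.2).2, hp.1⟩)
      rw [card_insert_of_notMem h'] at this
      omega
    · have h' : ((0, 2) : ℕ × ℕ) ∉ (Yi N F x d).erase (2, 2) := fun hc => h (mem_erase.1 hc).2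
      have := h1 (insert ((0, 2) : ℕ × ℕ) ((Yi N F x d).erase (2, 2))) m n (by
        intro p hp
        rw [mem_insert] at hp
        rcases hp with rfl | hp
        · refine ⟨Nat.zero_le _, hn2, by decide, by decide⟩
        · rw [mem_erase] at hp
          exact ⟨hm p hp.2, hn p hp.2, (hmem p hp.2).2, hp.1⟩)
      rw [card_insert_of_notMem h'] at this
      omega
  · refine h1 (Yi N F x d) m n (fun q hq => ⟨hm q hq, hn q hq, (hmem q hq).2, ?_⟩)
    rintro rfl
    exact h22 hq

/-- SCALE, with a slot for every member of `YS`. -/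
theorem scaleN (h1 : SPsi) (h2 : SPhi) {N : ℕ} {F : Finset (Finset ℤ)} {x : ℤ} {k a b d : ℕ}
    (P : Finset (ℤ × ℤ)) (hF : Fam N F) (hx : x ∈ Icc 1 (N : ℤ)) (hd : 1 ≤ d)
    (hforb : ∀ p ∈ P, x < p.1 ∧ p.1 ≤ x + a ∧ (N : ℤ) - b < p.2)
    (hk : a = 0 ∨ (x - 1 + a ≤ k ∧ x - 1 + b ≤ k ∧ 13 * k + 1 ≤ N))
    (h20 : ¬ (apset (x - 2 * d) d 2 ∈ F ∧ apset x d 2 ∈ F)) :
    (YS F x d).card ≤
      ((CovS N F x d).filter (fun p => (x < p.1 ∨ p.2 < x) ∧ p ∉ P)).card := by
  have hx' := mem_Icc.1 hx
  have hd' : (0 : ℤ) < d := by exact_mod_cast hd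
  refine (YS_card_le hF hx hd).trans ?_
  set T := (CovS N F x d).filter (fun p => (x < p.1 ∨ p.2 < x) ∧ p ∉ P) with hT
  rcases (Yi N F x d).eq_empty_or_nonempty with hX | hX
  · rw [hX, card_empty]; exact Nat.zero_le _
  have hXmem : ∀ q ∈ Yi N F x d, apset (x - q.1 * d) d (q.1 + q.2) ∈ F ∧
      2 ≤ Nat.gcd q.1 q.2 := by
    intro q hq
    unfold Yi at hq
    rw [mem_filter] at hq
    exact hq.2
  obtain ⟨qn, hqn, hnmax⟩ := exists_max_image (Yi N F x d) (fun q => q.2) hX
  obtain ⟨qm, hqm, hmmax⟩ := exists_max_image (Yi N F x d) (fun q => q.1) hX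
  set n := qn.2 with hn
  set m := qm.1 with hm
  -- right and left pairs
  have hright : ∀ p ∈ cp n, (x + (p.1 : ℤ) * d, x + (p.2 : ℤ) * d) ∈ CovS N F x d := by
    intro p hp
    rw [mem_cp] at hp
    apply cov_mem hF hd (hXmem qn hqn).1
    · omega
    · omega
    · omega
    · omega
    · omega
    · rw [Int.gcd_natCast_natCast]; exact hp.2
  have hleft : ∀ p ∈ cp m, (x + (-(p.2 : ℤ)) * d, x + (-(p.1 : ℤ)) * d) ∈ CovS N F x d := by
    intro p hp
    rw [mem_cp] at hp
    apply cov_mem hF hd (hXmem qm hqm).1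
    · omega
    · omega
    · omega
    · omega
    · omega
    · rw [Int.gcd_neg, Int.neg_gcd, Int.gcd_natCast_natCast, Nat.gcd_comm]; exact hp.2
  have hinjR : Function.Injective (fun p : ℕ × ℕ => (x + (p.1 : ℤ) * d, x + (p.2 : ℤ) * d)) := by
    intro p q hpq
    simp only [Prod.mk.injEq, add_right_inj] at hpq
    have e1 := mul_right_cancel₀ hd'.ne' hpq.1
    have e2 := mul_right_cancel₀ hd'.ne' hpq.2
    exact Prod.ext (by exact_mod_cast e1) (by exact_mod_cast e2)
  have hinjL : Function.Injective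
      (fun p : ℕ × ℕ => (x + (-(p.2 : ℤ)) * d, x + (-(p.1 : ℤ)) * d)) := by
    intro p q hpq
    simp only [Prod.mk.injEq, add_right_inj] at hpq
    have e1 := mul_right_cancel₀ hd'.ne' hpq.1
    have e2 := mul_right_cancel₀ hd'.ne' hpq.2
    exact Prod.ext (by omega) (by omega)
  by_cases hcase : (n : ℤ) * d ≤ (N : ℤ) - b - x ∨ a < d
  · -- no forbidden pairs
    have hPsi := Yi_phi h1 h20 m n (fun q hq => hmmax q hq) (fun q hq => hnmax q hq)
    refine hPsi.trans ?_
    rw [← card_cp, ← card_cp, add_comm, ← card_image_of_injective (cp n) hinjR,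
      ← card_image_of_injective (cp m) hinjL, ← card_union_of_disjoint]
    · apply card_le_card
      intro p hp
      rw [mem_union, mem_image, mem_image] at hp
      rw [hT, mem_filter]
      rcases hp with ⟨q, hq, rfl⟩ | ⟨q, hq, rfl⟩
      · have hq' := mem_cp.1 hq
        refine ⟨hright q hq, Or.inl ?_, ?_⟩
        · simp only
          have : (0 : ℤ) < (q.1 : ℤ) * d := mul_pos (by omega) hd'
          linarith
        · intro hf
          obtain ⟨_, f2, f3⟩ := hforb _ hf
          simp only at f2 f3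
          rcases hcase with hc | hc
          · have : (q.2 : ℤ) * d ≤ n * d := mul_le_mul_of_nonneg_right (by omega) hd'.le
            linarith
          · have : (1 : ℤ) * d ≤ q.1 * d := mul_le_mul_of_nonneg_right (by omega) hd'.le
            have : (a : ℤ) < d := by exact_mod_cast hc
            linarith
      · have hq' := mem_cp.1 hq
        have : (0 : ℤ) < (q.1 : ℤ) * d := mul_pos (by omega) hd'
        have h20 : (0 : ℤ) < (q.2 : ℤ) * d := mul_pos (by omega) hd'
        refine ⟨hleft q hq, Or.inr ?_, ?_⟩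
        · simp only
          linarith
        · intro hf
          obtain ⟨f1, _, _⟩ := hforb _ hf
          simp only at f1
          linarith
    · rw [disjoint_left]
      intro p hp hp'
      rw [mem_image] at hp hp'
      obtain ⟨q, hq, rfl⟩ := hp
      obtain ⟨r, hr, hqr⟩ := hp'
      simp only [Prod.mk.injEq] at hqr
      have hq' := mem_cp.1 hq
      have hr' := mem_cp.1 hr
      have h10 : (0 : ℤ) < (q.1 : ℤ) * d := mul_pos (by omega) hd'
      have h20 : (0 : ℤ) < (r.2 : ℤ) * d := mul_pos (by omega) hd'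
      linarith [hqr.1]
  · push Not at hcase
    obtain ⟨hc1, hc2⟩ := hcase
    have ha0 : a ≠ 0 := by omega
    obtain ⟨ha1, hb1, hk1⟩ := hk.resolve_left ha0
    obtain ⟨bm1, _⟩ := bounds hF (hXmem qm hqm).1
    obtain ⟨_, bn2⟩ := bounds hF (hXmem qn hqn).1
    rw [← hm] at bm1
    rw [← hn] at bn2
    -- count of X
    have hXc : (Yi N F x d).card ≤ (m + 1) * (n + 1) := by
      have : Yi N F x d ⊆ (range (m + 1)) ×ˢ (range (n + 1)) := by
        intro q hq
        rw [mem_product, mem_range, mem_range]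
        have e1 := hmmax q hq
        have e2 := hnmax q hq
        exact ⟨Nat.lt_succ_of_le e1, Nat.lt_succ_of_le e2⟩
      calc (Yi N F x d).card ≤ _ := card_le_card this
        _ = _ := by rw [card_product, card_range, card_range]
    -- good right pairs
    set Gd := (cp n).filter (fun p => ¬ (p.1 * d ≤ a ∧ (N : ℤ) - b < x + (p.2 : ℤ) * d)) with hGd
    set Bd := (cp n).filter (fun p => (p.1 * d ≤ a ∧ (N : ℤ) - b < x + (p.2 : ℤ) * d)) with hBd
    have hsum : Bd.card + Gd.card = Phi n := by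
      rw [← card_cp, hGd, hBd]
      exact card_filter_add_card_filter_not (s := cp n) _
    have hGT : Gd.card ≤ T.card := by
      rw [← card_image_of_injective Gd hinjR]
      apply card_le_card
      intro p hp
      rw [mem_image] at hp
      obtain ⟨q, hq, rfl⟩ := hp
      rw [hGd, mem_filter] at hq
      have hq' := mem_cp.1 hq.1
      rw [hT, mem_filter]
      refine ⟨hright q hq.1, Or.inl ?_, ?_⟩
      · simp only
        have : (0 : ℤ) < (q.1 : ℤ) * d := mul_pos (by omega) hd'
        linarith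
      · intro hf
        obtain ⟨_, f2, f3⟩ := hforb _ hf
        simp only at f2 f3
        apply hq.2
        refine ⟨?_, f3⟩
        have : (q.1 : ℤ) * d ≤ a := by linarith
        exact_mod_cast this
    have hBc : Bd.card ≤ (a / d) * (b / d + 1) := by
      -- f ranges over the integers with N - b - x < f d ≤ N - x
      have hf : Bd ⊆ (Icc 1 (a / d)) ×ˢ ((Icc 1 n).filter
          (fun f : ℕ => (N : ℤ) - b < x + (f : ℤ) * d)) := by
        intro p hp
        rw [hBd, mem_filter] at hp
        have hp' := mem_cp.1 hp.1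
        rw [mem_product, mem_Icc, mem_filter, mem_Icc]
        refine ⟨⟨hp'.1.1, ?_⟩, ⟨by omega, hp'.1.2.2⟩, hp.2.2⟩
        exact (Nat.le_div_iff_mul_le (by omega)).2 hp.2.1
      have hcount : ((Icc 1 n).filter (fun f : ℕ => (N : ℤ) - b < x + (f : ℤ) * d)).card
          ≤ b / d + 1 := by
        have hs : (Icc 1 n).filter (fun f : ℕ => (N : ℤ) - b < x + (f : ℤ) * d) ⊆
            Icc (n - b / d) n := by
          intro f hf
          rw [mem_filter, mem_Icc] at hf
          rw [mem_Icc]
          refine ⟨?_, hf.1.2⟩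
          obtain ⟨⟨hf1, hf2⟩, hf3⟩ := hf
          have : ((n : ℤ) - f) * d ≤ b := by
            have : ((n : ℤ) - f) * d = (n : ℤ) * d - f * d := by ring
            linarith
          have h4 : (n - f) * d ≤ b := by
            have h5 : (((n - f : ℕ) : ℤ)) * d ≤ b := by
              rw [Nat.cast_sub hf2]; exact this
            exact_mod_cast h5
          have h6 := (Nat.le_div_iff_mul_le (by omega : 0 < d)).2 h4
          omega
        refine (card_le_card hs).trans ?_
        rw [Nat.card_Icc]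
        generalize b / d = t
        clear_value n
        clear * -
        omega
      calc Bd.card ≤ _ := card_le_card hf
        _ = (a / d) * _ := by rw [card_product, Nat.card_Icc]; simp
        _ ≤ _ := Nat.mul_le_mul_left _ hcount
    have hmd : m * d + a ≤ k := by
      have : (m : ℤ) * d + a ≤ k := by linarith
      exact_mod_cast this
    have hmd' : m * d + b ≤ k := by
      have : (m : ℤ) * d + b ≤ k := by linarith
      exact_mod_cast this
    have hnd : 12 * k < n * d := by
      have : (12 : ℤ) * k < n * d := by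
        have : (13 : ℤ) * k + 1 ≤ N := by exact_mod_cast hk1
        linarith
      exact_mod_cast this
    have hineq := phi_ineq k a b d m n hd hc2 hmd hmd' hnd
    have hPhi := h2 n
    have hXc' : ((Yi N F x d).card : ℝ) ≤ ((m : ℝ) + 1) * (n + 1) := by exact_mod_cast hXc
    have hBc' : (Bd.card : ℝ) ≤ ((a / d : ℕ) : ℝ) * (((b / d : ℕ) : ℝ) + 1) := by
      exact_mod_cast hBc
    have hsum' : (Bd.card : ℝ) + Gd.card = Phi n := by exact_mod_cast hsum
    have hGT' : (Gd.card : ℝ) ≤ T.card := by exact_mod_cast hGT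
    have : ((Yi N F x d).card : ℝ) ≤ T.card := by linarith
    exact_mod_cast this

end Pool.Agent.Work.MP_1d0aa8_co.NS
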