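import Pool.Agent.Work.MP_1d0aa8_co.NS.Count
import Pool.Agent.Work.MP_1d0aa8_co.NS.Scale

/-!
# Non-starred families: the near-star regime
-/

set_option autoImplicit false

namespace Pool.Agent.Work.MP_1d0aa8_co.NS

open Finset
open scoped Classical
open TOne

section

variable {N : ℕ} {F : Finset (Finset ℤ)} {x : ℤ} {k : ℕ}

/-- The members with at least three elements through `x`. -/
theorem big3 (hF : Fam N F) (hx : x ∈ Icc 1 (N : ℤ)) :
    (F.filter (fun A => x ∈ A ∧ 3 ≤ A.card)).card ≤ (N - 1).choose 2 + (C5 F x).card := by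
  have h := thmSlot N F x ∅ hF hx (empty_subset _) (fun p hp => absurd hp (notMem_empty p))
    (fun A hA => by
      unfold NA at hA
      rw [mem_filter] at hA
      obtain ⟨u, hu, v, hv, h1, h2, h3, h4⟩ := exists_own_at hA.2.1 hA.2.2
      exact ⟨u, hu, v, hv, h1, h2, h3, h4, notMem_empty _⟩)
    (fun d hd => by
      refine (thmScale0 thmPsi N F x d hF hx hd).trans (card_le_card ?_)
      intro p hp
      rw [mem_filter] at hp ⊢
      exact ⟨hp.1, hp.2, notMem_empty p⟩)
  rw [card_empty] at h
  omega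

/-- The near-star regime, everything on the right. -/
theorem rightCaseN (c : NearS N F x k) (hright : ∀ A ∈ Sd F x 1, ∀ y ∈ A, x < y)
    (hne : (Av F x).Nonempty) : F.card ≤ N.choose 2 + 1 := by
  have hF := c.fam
  have hx := c.hx
  have hN5 := c.hN
  have hsplit : (F.filter (fun A => x ∈ A)).card + (Av F x).card = F.card := by
    unfold Av
    exact card_filter_add_card_filter_not (s := F) _
  have hthr : (F.filter (fun A => x ∈ A)).card ≤
      (F.filter (fun A => x ∈ A ∧ 3 ≤ A.card)).card +
        (F.filter (fun A => x ∈ A ∧ A.card ≤ 2)).card := by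
    refine (card_le_card ?_).trans (card_union_le _ _)
    intro A hA
    rw [mem_filter] at hA
    rw [mem_union, mem_filter, mem_filter]
    rcases Nat.lt_or_ge A.card 3 with h | h
    · exact Or.inr ⟨hA.1, hA.2, by omega⟩
    · exact Or.inl ⟨hA.1, hA.2, h⟩
  have hch := choose_two_succ N (by omega)
  have hsm := small hF hx hne
  have hb3 := big3 hF hx
  have hpos : 0 < (Av F x).card := card_pos.2 hne
  rcases Nat.lt_or_ge (Av F x).card 2 with hlt | hge
  · have := c5_le hF hne
    omega
  rcases Nat.lt_or_ge (Av F x).card 3 with hlt | hge3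
  · have := c.missed hge
    omega
  obtain ⟨T, hTX, hTc, hTS⟩ := c.privSet hge
  rcases (Sd F x 1).eq_empty_or_nonempty with hS | hS
  · -- no interval avoids `x`
    have h1 := slotN N F x ∅ hF hx (empty_subset _) (fun p hp => absurd hp (notMem_empty p))
      (fun A hA => by
        unfold NA at hA
        rw [mem_filter] at hA
        obtain ⟨u, hu, v, hv, h1, h2, h3, h4⟩ := exists_own_at hA.2.1 hA.2.2
        exact ⟨u, hu, v, hv, h1, h2, h3, h4, notMem_empty _⟩)
      (fun d hd => scaleN (k := k) (a := 0) (b := 0) thmPsi thmPhi ∅ hF hx hd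
        (fun p hp => absurd hp (notMem_empty p)) (Or.inl rfl) (c.no_both hge3 hd))
    rw [card_empty] at h1
    have h2 : (Av F x).filter (fun A => A ∉ Sd F x 1) = Av F x := by
      rw [hS]
      apply filter_true_of_mem
      intro A _
      exact notMem_empty A
    rw [h2] at hTc
    have h3 := card_le_card hTX
    omega
  · -- the two special intervals
    obtain ⟨A1, hA1, hA1max⟩ := exists_max_image (Sd F x 1) lo hS
    obtain ⟨A2, hA2, hA2min⟩ := exists_min_image (Sd F x 1) hi hS
    obtain ⟨hA1F, hxA1, hA1ne, hA1c⟩ := mem_Sd hA1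
    obtain ⟨hA2F, hxA2, hA2ne, hA2c⟩ := mem_Sd hA2
    have hlo := lo_mem hA1ne
    have hhi := hi_mem hA2ne
    have e1 := hright A1 hA1 _ hlo
    have e2 := (mem_Icc.1 (hF.sub A2 hA2F hhi)).2
    have emeet : ∀ A ∈ Sd F x 1, ∀ B ∈ Sd F x 1, ∃ y ∈ A, y ∈ B := by
      intro A hA B hB
      by_cases hAB : A = B
      · obtain ⟨_, _, ⟨y, hy⟩, _⟩ := mem_Sd hA
        exact ⟨y, hy, hAB ▸ hy⟩
      · obtain ⟨y, hy⟩ := (hF.ap A (mem_Sd hA).1 B (mem_Sd hB).1 hAB).1
        rw [mem_inter] at hy
        exact ⟨y, hy.1, hy.2⟩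
    have hnear : Near N F x k (lo A1 - x - 1).toNat ((N : ℤ) - hi A2).toNat := by
      have ea : x + ((lo A1 - x - 1).toNat : ℤ) + 1 = lo A1 := by
        rw [Int.toNat_of_nonneg (by omega)]; ring
      have eb : (N : ℤ) - (((N : ℤ) - hi A2).toNat : ℤ) = hi A2 := by
        rw [Int.toNat_of_nonneg (by omega)]; ring
      refine ⟨hF, hx, c.hk, c.big, hright, ?_, ?_, ⟨A1, hA1, ?_⟩, ⟨A2, hA2, ?_⟩⟩
      · intro A hA
        rw [ea]
        obtain ⟨_, _, hAne, hAc⟩ := mem_Sd hA
        obtain ⟨y, hy, hy'⟩ := emeet A hA A1 hA1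
        exact hAc _ (lo_mem hAne) y hy _ (hA1max A hA) (lo_le hy')
      · intro A hA
        rw [eb]
        obtain ⟨_, _, hAne, hAc⟩ := mem_Sd hA
        obtain ⟨y, hy, hy'⟩ := emeet A hA A2 hA2
        exact hAc y hy _ (hi_mem hAne) _ (le_hi hy') (hA2min A hA)
      · intro y hy
        rw [ea]
        exact lo_le hy
      · intro y hy
        rw [eb]
        exact le_hi hy
    set a := (lo A1 - x - 1).toNat
    set b := ((N : ℤ) - hi A2).toNat
    obtain ⟨ha1, hb1, -⟩ := thmNearAB N F x k a b hnear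
    have hforb : ∀ p ∈ Forb N F x, x < p.1 ∧ p.1 ≤ x + a ∧ (N : ℤ) - b < p.2 := by
      intro p hp
      unfold Forb at hp
      rw [mem_filter] at hp
      obtain ⟨_, hp1, I, hI, hI'⟩ := hp
      have h4 := hI' _ (hnear.ha I hI)
      have h5 := hI' _ (hnear.hb I hI)
      exact ⟨hp1, by omega, by omega⟩
    have hslot := slotN N F x (Forb N F x) hF hx (filter_subset _ _)
      (fun p hp => by
        unfold Forb at hp
        rw [mem_filter] at hp
        exact hp.2.1)
      (thmMargin thmMarginA thmMarginB thmNearAB N F x k a b hnear)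
      (fun d hd => scaleN (k := k) (a := a) (b := b) thmPsi thmPhi (Forb N F x) hF hx hd
        hforb (Or.inr ⟨ha1, hb1, c.hk⟩) (c.no_both hge3 hd))
    have hcount := count hF hright hx T hTX hTc hTS
    omega

end

/-- The near-star regime. -/
theorem nearStar {N : ℕ} {F : Finset (Finset ℤ)} {x : ℤ} {k : ℕ} (c : NearS N F x k)
    (hne : (Av F x).Nonempty) : F.card ≤ N.choose 2 + 1 := by
  rcases thmSide N F x c.fam with hr | hl
  · exact rightCaseN c hr hne
  · obtain ⟨r1, r2, r3, r4⟩ := thmRefl N F c.fam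
    rw [← r2]
    have hinj : Function.Injective (fun y : ℤ => (N : ℤ) + 1 - y) := by
      intro p q hpq
      simp only at hpq
      linarith
    have hx' := mem_Icc.1 c.hx
    refine rightCaseN (F := refl N F) (x := (N : ℤ) + 1 - x) (k := k)
      ⟨r1, ?_, c.hN, c.hk, ?_⟩ ?_ ?_
    · rw [mem_Icc]
      constructor <;> linarith [hx'.1, hx'.2]
    · intro B hB hxB
      have h11 := c.big _ (r3 B hB) (by
        intro hmem
        rw [mem_image] at hmem
        obtain ⟨y, hy, hyx⟩ := hmem
        apply hxB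
        have : (N : ℤ) + 1 - x = y := by linarith
        rw [this]; exact hy)
      rwa [card_image_of_injective _ hinj] at h11
    · intro A hA y hy
      have h12 := r4 _ A hA
      have e : (N : ℤ) + 1 - ((N : ℤ) + 1 - x) = x := by ring
      rw [e] at h12
      have := hl _ h12 ((N : ℤ) + 1 - y) (mem_image_of_mem _ hy)
      linarith
    · obtain ⟨B, hB⟩ := hne
      have hB' := mem_Av.1 hB
      refine ⟨B.image (fun y => (N : ℤ) + 1 - y), ?_⟩
      rw [mem_Av]
      refine ⟨mem_image_of_mem _ hB'.1, ?_⟩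
      intro hmem
      obtain ⟨y, hy, hyx⟩ := mem_image.1 hmem
      apply hB'.2
      have : y = x := by linarith
      rw [← this]; exact hy

end Pool.Agent.Work.MP_1d0aa8_co.NS
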