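import Pool.Agent.Work.MP_1d0aa8_co.Final
import Pool.Agent.Work.MP_1d0aa8_co.NS.Mid

/-!
# Non-starred families: the final theorem
-/

set_option autoImplicit false

namespace Pool.Agent.Work.MP_1d0aa8_co.NS

open Finset
open scoped Classical

/-- The upper bound for non-starred families of subsets of `[N]`, in the integers. -/
theorem upperN : ∃ N0 : ℕ, ∀ N : ℕ, N0 ≤ N → ∀ F : Finset (Finset ℤ), Fam N F →
    (¬ ∃ x : ℤ, ∀ A ∈ F, x ∈ A) → F.card ≤ N.choose 2 + 1 := by
  obtain ⟨C, hC, N2, hT2⟩ := t2 thmHT2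
  have hS : SCaseS := thmCaseS thmLarge (thmAPtot thmSplit thmCount thmZeta) thmExcCount
    (thmBad thmDiv) (thmTypeAB thmDiv) thmQuasi
  obtain ⟨N3, hS3⟩ := hS C hC
  refine ⟨max N2 (max N3 50), ?_⟩
  intro N hN F hF hns
  have hN2 : N2 ≤ N := (le_max_left _ _).trans hN
  have hN'' := (le_max_right _ _).trans hN
  have hN3 : N3 ≤ N := (le_max_left _ _).trans hN''
  have hN50 : 50 ≤ N := (le_max_right _ _).trans hN''
  by_contra hcon
  push Not at hcon
  have hbig : 0.49 * (N : ℝ) ^ 2 ≤ (F.card : ℝ) := by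
    have h' : N.choose 2 ≤ F.card := by omega
    have h'' : ((N.choose 2 : ℕ) : ℝ) ≤ F.card := by exact_mod_cast h'
    rw [Nat.cast_choose_two] at h''
    have h3 : (50 : ℝ) ≤ N := by exact_mod_cast hN50
    nlinarith
  obtain ⟨x, hx, hxbig⟩ := hS3 N hN3 F hF hbig
  by_cases hall : ∀ B ∈ F, x ∉ B → N ≤ B.card + 1 + (N - 1) / 13
  · have hne : (Av F x).Nonempty := by
      by_contra hne
      rw [not_nonempty_iff_eq_empty] at hne
      apply hns
      refine ⟨x, fun A hA => ?_⟩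
      by_contra hxA
      have : A ∈ Av F x := mem_Av.2 ⟨hA, hxA⟩
      rw [hne] at this
      exact notMem_empty A this
    have := nearStar (k := (N - 1) / 13) ⟨hF, hx, by omega, by omega, hall⟩ hne
    omega
  · push Not at hall
    obtain ⟨B, hB, hxB, hc⟩ := hall
    have := hT2 N hN2 F x hF hx hxbig ⟨B, hB, hxB, by omega⟩
    omega

/-- The image of a family of sets of natural numbers. -/
noncomputable def mapF (G : Finset (Finset ℕ)) : Finset (Finset ℤ) :=
  G.image (fun A : Finset ℕ => A.image (fun n : ℕ => (n : ℤ)))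

theorem castInj : Function.Injective (fun A : Finset ℕ => A.image (fun n : ℕ => (n : ℤ))) :=
  Finset.image_injective Nat.cast_injective

theorem mem_mapF {G : Finset (Finset ℕ)} {A : Finset ℕ} :
    A.image (fun n : ℕ => (n : ℤ)) ∈ mapF G ↔ A ∈ G := by
  unfold mapF
  rw [mem_image]
  constructor
  · rintro ⟨B, hB, h⟩
    have := castInj h
    rwa [← this]
  · intro h
    exact ⟨A, h, rfl⟩

theorem card_mapF (G : Finset (Finset ℕ)) : (mapF G).card = G.card :=
  card_image_of_injective _ castInj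

theorem fam_mapF {N : ℕ} {G : Finset (Finset ℕ)} (h1 : G ⊆ (Finset.Icc 1 N).powerset)
    (h2 : ∀ A ∈ G, ∀ B ∈ G, A ≠ B →
      ∃ a d k : ℕ, A ∩ B = (Finset.range (k + 1)).image (fun i => a + i * d)) :
    Fam N (mapF G) := by
  have hcast : Function.Injective (fun n : ℕ => (n : ℤ)) := Nat.cast_injective
  refine ⟨?_, ?_⟩
  · intro A hA y hy
    obtain ⟨A', hA', rfl⟩ := mem_image.1 hA
    obtain ⟨n, hn, rfl⟩ := mem_image.1 hy
    have h1 := mem_powerset.1 (h1 hA') hn
    rw [Finset.mem_Icc] at h1 ⊢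
    constructor
    · exact_mod_cast h1.1
    · exact_mod_cast h1.2
  · intro A hA B hB hne
    obtain ⟨A', hA', rfl⟩ := mem_image.1 hA
    obtain ⟨B', hB', rfl⟩ := mem_image.1 hB
    have hne' : A' ≠ B' := fun h => hne (by rw [h])
    obtain ⟨a, d, k, hk⟩ := h2 A' hA' B' hB' hne'
    have h1 : (A'.image (fun n : ℕ => (n : ℤ))) ∩ (B'.image (fun n : ℕ => (n : ℤ)))
        = apset (a : ℤ) d k := by
      rw [← Finset.image_inter _ _ hcast, hk, Finset.image_image]
      unfold apset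
      refine Finset.image_congr ?_
      intro i _
      simp
    rw [h1]
    exact APc_apset _ _ _

theorem star_mapF {G : Finset (Finset ℕ)} (h : ∃ x : ℤ, ∀ A ∈ mapF G, x ∈ A) :
    ∃ x : ℕ, ∀ A ∈ G, x ∈ A := by
  obtain ⟨x, hx⟩ := h
  rcases G.eq_empty_or_nonempty with rfl | ⟨A0, hA0⟩
  · exact ⟨0, fun A hA => absurd hA (notMem_empty A)⟩
  · have h0 := hx _ (mem_mapF.2 hA0)
    rw [mem_image] at h0
    obtain ⟨n, hn, rfl⟩ := h0
    refine ⟨n, fun A hA => ?_⟩
    have h1 := hx _ (mem_mapF.2 hA)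
    rw [mem_image] at h1
    obtain ⟨m, hm, hmn⟩ := h1
    have : m = n := by exact_mod_cast hmn
    rwa [← this]

/-- The upper bound in the language of the problem. -/
theorem upperNat : ∃ N0 : ℕ, ∀ N : ℕ, N0 ≤ N → ∀ G : Finset (Finset ℕ),
    G ⊆ (Finset.Icc 1 N).powerset →
    (∀ A ∈ G, ∀ B ∈ G, A ≠ B →
      ∃ a d k : ℕ, A ∩ B = (Finset.range (k + 1)).image (fun i => a + i * d)) →
    (¬ ∃ x : ℕ, ∀ A ∈ G, x ∈ A) → G.card ≤ N.choose 2 + 1 := by
  obtain ⟨N0, h⟩ := upperN
  refine ⟨N0, fun N hN G h1 h2 h3 => ?_⟩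
  rw [← card_mapF G]
  exact h N hN (mapF G) (fam_mapF h1 h2) (fun hc => h3 (star_mapF hc))

/-! ### The example -/

/-- The non-starred example: all `{1, y}`, all `{1, u, v}` and `{2, …, N}`. -/
def exN (N : ℕ) : Finset (Finset ℕ) :=
  insert (Finset.Icc 2 N)
    ((powersetCard 1 (Finset.Icc 2 N) ∪ powersetCard 2 (Finset.Icc 2 N)).image (insert 1))

theorem mem_exN {N : ℕ} {A : Finset ℕ} : A ∈ exN N ↔ A = Finset.Icc 2 N ∨
    ∃ s : Finset ℕ, s ⊆ Finset.Icc 2 N ∧ (s.card = 1 ∨ s.card = 2) ∧ A = insert 1 s := by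
  unfold exN
  rw [mem_insert, mem_image]
  constructor
  · rintro (h | ⟨s, hs, rfl⟩)
    · exact Or.inl h
    · rw [mem_union, mem_powersetCard, mem_powersetCard] at hs
      right
      rcases hs with h | h
      · exact ⟨s, h.1, Or.inl h.2, rfl⟩
      · exact ⟨s, h.1, Or.inr h.2, rfl⟩
  · rintro (h | ⟨s, h1, h2, rfl⟩)
    · exact Or.inl h
    · right
      refine ⟨s, ?_, rfl⟩
      rw [mem_union, mem_powersetCard, mem_powersetCard]
      rcases h2 with h | h
      · exact Or.inl ⟨h1, h⟩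
      · exact Or.inr ⟨h1, h⟩

theorem ap_small {s : Finset ℕ} (h : s.card = 1 ∨ s.card = 2) : LowAux.isAP s := by
  rcases h with h | h
  · obtain ⟨a, rfl⟩ := card_eq_one.1 h
    exact LowAux.ap1 a
  · obtain ⟨a, b, -, rfl⟩ := card_eq_two.1 h
    exact LowAux.ap2 a b

theorem exN_ap {N : ℕ} {A B : Finset ℕ} (hA : A ∈ exN N) (hB : B ∈ exN N) (hne : A ≠ B) :
    LowAux.isAP (A ∩ B) := by
  have key : ∀ s : Finset ℕ, s ⊆ Finset.Icc 2 N → insert 1 s ∩ Finset.Icc 2 N = s := by
    intro s hs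
    ext y
    rw [mem_inter, mem_insert]
    constructor
    · rintro ⟨rfl | h, h2⟩
      · rw [mem_Icc] at h2; omega
      · exact h
    · intro h
      exact ⟨Or.inr h, hs h⟩
  rw [mem_exN] at hA hB
  rcases hA with rfl | ⟨s, hs, hsc, rfl⟩
  · rcases hB with rfl | ⟨t, ht, htc, rfl⟩
    · exact absurd rfl hne
    · rw [inter_comm, key t ht]
      exact ap_small htc
  · rcases hB with rfl | ⟨t, ht, htc, rfl⟩
    · rw [key s hs]
      exact ap_small hsc
    · rw [← insert_inter_distrib]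
      have h1 : 1 ∉ s ∩ t := by
        intro h
        have := mem_Icc.1 (hs (mem_inter.1 h).1)
        omega
      have hst : s ≠ t := fun h => hne (by rw [h])
      have hle : (s ∩ t).card ≤ 1 := by
        by_contra hcon
        push Not at hcon
        have c1 := card_le_card (inter_subset_left (s₁ := s) (s₂ := t))
        have c2 := card_le_card (inter_subset_right (s₁ := s) (s₂ := t))
        have e1 : s ∩ t = s := eq_of_subset_of_card_le inter_subset_left (by omega)
        have e2 : s ∩ t = t := eq_of_subset_of_card_le inter_subset_right (by omega)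
        exact hst (e1.symm.trans e2)
      apply ap_small
      rw [card_insert_of_notMem h1]
      omega

theorem exN_card {N : ℕ} (hN : 3 ≤ N) : (exN N).card = N.choose 2 + 1 := by
  have hcI : (Finset.Icc 2 N).card = N - 1 := by rw [Nat.card_Icc]; omega
  unfold exN
  rw [card_insert_of_notMem, card_image_of_injOn, card_union_of_disjoint, card_powersetCard,
    card_powersetCard, hcI, Nat.choose_one_right]
  · obtain ⟨m, rfl⟩ : ∃ m, N = m + 1 := ⟨N - 1, by omega⟩
    rw [Nat.add_sub_cancel, Nat.choose_succ_succ' m 1, Nat.choose_one_right]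
  · rw [disjoint_left]
    intro s hs hs'
    rw [mem_powersetCard] at hs hs'
    omega
  · intro s hs t ht hst
    rw [mem_coe, mem_union, mem_powersetCard, mem_powersetCard] at hs ht
    have h1 : 1 ∉ s := by
      intro h
      have : s ⊆ Finset.Icc 2 N := by rcases hs with h | h <;> exact h.1
      have := mem_Icc.1 (this h)
      omega
    have h2 : 1 ∉ t := by
      intro h
      have : t ⊆ Finset.Icc 2 N := by rcases ht with h | h <;> exact h.1
      have := mem_Icc.1 (this h)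
      omega
    rw [← erase_insert h1, ← erase_insert h2, hst]
  · rw [mem_image]
    rintro ⟨s, -, h⟩
    have : 1 ∈ Finset.Icc 2 N := by
      rw [← h]
      exact mem_insert_self 1 s
    rw [mem_Icc] at this
    omega

theorem exN_sub {N : ℕ} (hN : 3 ≤ N) : exN N ⊆ (Finset.Icc 1 N).powerset := by
  intro A hA
  rw [mem_powerset]
  intro y hy
  rw [mem_Icc]
  rcases mem_exN.1 hA with rfl | ⟨s, hs, -, rfl⟩
  · rw [mem_Icc] at hy; omega
  · rw [mem_insert] at hy
    rcases hy with rfl | hy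
    · omega
    · have := mem_Icc.1 (hs hy)
      omega

theorem exN_not {N : ℕ} (hN : 3 ≤ N) : ¬ ∃ x : ℕ, ∀ A ∈ exN N, x ∈ A := by
  rintro ⟨x, hx⟩
  have h1 := mem_Icc.1 (hx _ (mem_exN.2 (Or.inl rfl)))
  obtain ⟨y, hy, hyx⟩ : ∃ y ∈ Finset.Icc 2 N, y ≠ x := by
    by_cases h : x = 2
    · exact ⟨3, by rw [mem_Icc]; omega, by omega⟩
    · exact ⟨2, by rw [mem_Icc]; omega, by omega⟩
  have h2 := hx (insert 1 {y}) (mem_exN.2 (Or.inr ⟨{y}, by
    intro z hz
    rw [mem_singleton] at hz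
    rwa [hz], Or.inl (card_singleton y), rfl⟩))
  rw [mem_insert, mem_singleton] at h2
  omega

/-- For all large `N` the maximum size of a non-starred family is `N.choose 2 + 1`. -/
theorem final : ∃ N0 : ℕ, ∀ N : ℕ, N0 ≤ N →
    IsGreatest {m : ℕ | ∃ G : Finset (Finset ℕ), G ⊆ (Finset.Icc 1 N).powerset ∧
      (∀ A ∈ G, ∀ B ∈ G, A ≠ B →
        ∃ a d k : ℕ, A ∩ B = (Finset.range (k + 1)).image (fun i => a + i * d)) ∧
      (¬ ∃ x : ℕ, ∀ A ∈ G, x ∈ A) ∧ G.card = m} (N.choose 2 + 1) := by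
  obtain ⟨N0, h⟩ := upperNat
  refine ⟨max N0 3, fun N hN => ⟨?_, ?_⟩⟩
  · have hN3 : 3 ≤ N := (le_max_right _ _).trans hN
    refine ⟨exN N, exN_sub hN3, ?_, exN_not hN3, exN_card hN3⟩
    intro A hA B hB hne
    obtain ⟨a, d, k, hk⟩ := exN_ap hA hB hne
    refine ⟨a, d, k, ?_⟩
    convert hk
  · rintro m ⟨G, h1, h2, h3, rfl⟩
    refine h N ((le_max_left _ _).trans hN) G h1 ?_ h3
    intro A hA B hB hne
    obtain ⟨a, d, k, hk⟩ := h2 A hA B hB hne
    refine ⟨a, d, k, ?_⟩
    convert hk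

end Pool.Agent.Work.MP_1d0aa8_co.NS
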