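import Pool.Agent.Work.MP_1d0aa8_co.NS.Final

/-!
# The structure of the families with more than `N.choose 2 + 1` members
-/

set_option autoImplicit false

namespace Pool.Agent.Work.MP_1d0aa8_co.NS

open Finset
open TOne

/-- The points `y` with `{x, y}` not in `G`. -/
def Ym (N : ℕ) (G : Finset (Finset ℕ)) (x : ℕ) : Finset ℕ :=
  (Finset.Icc 1 N).filter (fun y => ({x, y} : Finset ℕ) ∉ G)

/-- The pairs of points different from `x` which are contained in no member. -/
def Pm (N : ℕ) (G : Finset (Finset ℕ)) (x : ℕ) : Finset (Finset ℕ) :=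
  (((Finset.Icc 1 N).erase x).powersetCard 2).filter (fun s => ∀ A ∈ G, ¬ s ⊆ A)

/-- The extended family. -/
def Gext (N : ℕ) (G : Finset (Finset ℕ)) (x : ℕ) : Finset (Finset ℕ) :=
  G ∪ ((Ym N G x).image (fun y => ({x, y} : Finset ℕ)) ∪ (Pm N G x).image (insert x))

theorem mem_Ym {N : ℕ} {G : Finset (Finset ℕ)} {x y : ℕ} :
    y ∈ Ym N G x ↔ (1 ≤ y ∧ y ≤ N) ∧ ({x, y} : Finset ℕ) ∉ G := by
  unfold Ym
  rw [mem_filter, mem_Icc]

theorem mem_Pm {N : ℕ} {G : Finset (Finset ℕ)} {x : ℕ} {s : Finset ℕ} :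
    s ∈ Pm N G x ↔ (s ⊆ (Finset.Icc 1 N).erase x ∧ s.card = 2) ∧ ∀ A ∈ G, ¬ s ⊆ A := by
  unfold Pm
  rw [mem_filter, mem_powersetCard]

theorem mem_Gext {N : ℕ} {G : Finset (Finset ℕ)} {x : ℕ} {A : Finset ℕ} :
    A ∈ Gext N G x ↔ A ∈ G ∨ (∃ y ∈ Ym N G x, ({x, y} : Finset ℕ) = A) ∨
      ∃ s ∈ Pm N G x, insert x s = A := by
  unfold Gext
  rw [mem_union, mem_union, mem_image, mem_image]

theorem notMem_Pm {N : ℕ} {G : Finset (Finset ℕ)} {x : ℕ} {s : Finset ℕ} (hs : s ∈ Pm N G x) :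
    x ∉ s := by
  intro h
  have := (mem_Pm.1 hs).1.1 h
  rw [mem_erase] at this
  exact this.1 rfl

theorem card_Gext {N : ℕ} {G : Finset (Finset ℕ)} {x : ℕ} :
    (Gext N G x).card = G.card + ((Ym N G x).card + (Pm N G x).card) := by
  have i1 : ((Ym N G x).image (fun y => ({x, y} : Finset ℕ))).card = (Ym N G x).card := by
    apply card_image_of_injective
    intro y z hyz
    have h1 : y ∈ ({x, z} : Finset ℕ) := by
      rw [← (show ({x, y} : Finset ℕ) = {x, z} from hyz)]
      exact mem_insert_of_mem (mem_singleton_self y)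
    have h2 : z ∈ ({x, y} : Finset ℕ) := by
      rw [(show ({x, y} : Finset ℕ) = {x, z} from hyz)]
      exact mem_insert_of_mem (mem_singleton_self z)
    rw [mem_insert, mem_singleton] at h1 h2
    rcases h1 with h1 | h1
    · rcases h2 with h2 | h2
      · rw [h1, h2]
      · exact h2.symm
    · exact h1
  have i2 : ((Pm N G x).image (insert x)).card = (Pm N G x).card := by
    apply card_image_of_injOn
    intro s hs t ht hst
    rw [mem_coe] at hs ht
    rw [← erase_insert (notMem_Pm hs), ← erase_insert (notMem_Pm ht), hst]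
  unfold Gext
  rw [card_union_of_disjoint, card_union_of_disjoint, i1, i2]
  · rw [disjoint_left]
    intro A hA hA'
    rw [mem_image] at hA hA'
    obtain ⟨y, -, rfl⟩ := hA
    obtain ⟨s, hs, h⟩ := hA'
    have h1 := congrArg Finset.card h
    rw [card_insert_of_notMem (notMem_Pm hs), (mem_Pm.1 hs).1.2] at h1
    have h2 : ({x, y} : Finset ℕ).card ≤ 2 := card_le_two
    omega
  · rw [disjoint_left]
    intro A hA hA'
    rw [mem_union, mem_image, mem_image] at hA'
    rcases hA' with ⟨y, hy, rfl⟩ | ⟨s, hs, rfl⟩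
    · exact (mem_Ym.1 hy).2 hA
    · exact (mem_Pm.1 hs).2 _ hA (subset_insert x s)

/-- Nonempty sets with at most two elements are progressions. -/
theorem ap_le_two {s : Finset ℕ} (h0 : s.Nonempty) (h : s.card ≤ 2) : LowAux.isAP s := by
  apply ap_small
  have := card_pos.2 h0
  omega

theorem Gext_ap {N : ℕ} {G : Finset (Finset ℕ)} {x : ℕ} (hs : ∀ A ∈ G, x ∈ A)
    (h2 : ∀ A ∈ G, ∀ B ∈ G, A ≠ B → LowAux.isAP (A ∩ B)) {A B : Finset ℕ}
    (hA : A ∈ Gext N G x) (hB : B ∈ Gext N G x) (hne : A ≠ B) : LowAux.isAP (A ∩ B) := by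
  have hx : ∀ C ∈ Gext N G x, x ∈ C := by
    intro C hC
    rcases mem_Gext.1 hC with h | ⟨y, -, rfl⟩ | ⟨s, -, rfl⟩
    · exact hs C h
    · exact mem_insert_self x _
    · exact mem_insert_self x _
  have hne0 : (A ∩ B).Nonempty := ⟨x, mem_inter.2 ⟨hx A hA, hx B hB⟩⟩
  -- a new pair
  have key2 : ∀ (C : Finset ℕ) (y : ℕ), (C ∩ {x, y}).card ≤ 2 := fun C y =>
    (card_le_card inter_subset_right).trans card_le_two
  -- a new triple and a member not containing it
  have key3 : ∀ (C s : Finset ℕ), s ∈ Pm N G x → ¬ insert x s ⊆ C →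
      (C ∩ insert x s).card ≤ 2 := by
    intro C s hs' hC
    by_contra hcon
    push Not at hcon
    have hc : (insert x s).card = 3 := by
      rw [card_insert_of_notMem (notMem_Pm hs'), (mem_Pm.1 hs').1.2]
    have : C ∩ insert x s = insert x s :=
      eq_of_subset_of_card_le inter_subset_right (by omega)
    apply hC
    rw [← this]
    exact inter_subset_left
  rcases mem_Gext.1 hA with hA' | ⟨y, hy, rfl⟩ | ⟨s, hs1, rfl⟩
  · rcases mem_Gext.1 hB with hB' | ⟨y, hy, rfl⟩ | ⟨t, ht, rfl⟩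
    · exact h2 A hA' B hB' hne
    · exact ap_le_two hne0 (key2 _ _)
    · refine ap_le_two hne0 (key3 A t ht ?_)
      intro hsub
      exact (mem_Pm.1 ht).2 A hA' ((subset_insert x t).trans hsub)
  · rw [inter_comm] at hne0 ⊢
    exact ap_le_two hne0 (key2 _ _)
  · rcases mem_Gext.1 hB with hB' | ⟨y, hy, rfl⟩ | ⟨t, ht, rfl⟩
    · rw [inter_comm] at hne0 ⊢
      refine ap_le_two hne0 (key3 B s hs1 ?_)
      intro hsub
      exact (mem_Pm.1 hs1).2 B hB' ((subset_insert x s).trans hsub)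
    · exact ap_le_two hne0 (key2 _ _)
    · refine ap_le_two hne0 (key3 _ t ht ?_)
      intro hsub
      apply hne
      symm
      apply eq_of_subset_of_card_le hsub
      rw [card_insert_of_notMem (notMem_Pm hs1), card_insert_of_notMem (notMem_Pm ht),
        (mem_Pm.1 hs1).1.2, (mem_Pm.1 ht).1.2]

theorem Gext_sub {N : ℕ} {G : Finset (Finset ℕ)} {x : ℕ} (hx : x ∈ Finset.Icc 1 N)
    (h1 : G ⊆ (Finset.Icc 1 N).powerset) : Gext N G x ⊆ (Finset.Icc 1 N).powerset := by
  intro A hA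
  rw [mem_powerset]
  rcases mem_Gext.1 hA with h | ⟨y, hy, rfl⟩ | ⟨s, hs, rfl⟩
  · exact mem_powerset.1 (h1 h)
  · intro z hz
    rw [mem_insert, mem_singleton] at hz
    rcases hz with rfl | rfl
    · exact hx
    · exact mem_Icc.2 (mem_Ym.1 hy).1
  · intro z hz
    rw [mem_insert] at hz
    rcases hz with rfl | hz
    · exact hx
    · exact (mem_erase.1 ((mem_Pm.1 hs).1.1 hz)).2

/-- The centred five term members of `G`. -/
def Dm (N : ℕ) (G : Finset (Finset ℕ)) (x : ℕ) : Set ℕ :=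
  {d | d ∈ Finset.Icc 1 ((N - 1) / 4) ∧ ∃ c : ℕ, c + 2 * d = x ∧
    (Finset.range 5).image (fun i => c + i * d) ∈ G}

theorem Dm_finite (N : ℕ) (G : Finset (Finset ℕ)) (x : ℕ) : (Dm N G x).Finite := by
  apply (Finset.finite_toSet (Finset.Icc 1 ((N - 1) / 4))).subset
  intro d hd
  exact hd.1

theorem c5_nat {N : ℕ} {G : Finset (Finset ℕ)} {x : ℕ} (h1 : G ⊆ (Finset.Icc 1 N).powerset)
    (hF : Fam N (mapF (Gext N G x))) :
    (C5 (mapF (Gext N G x)) (x : ℤ)).card ≤ (Dm N G x).ncard := by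
  classical
  have hfin := Dm_finite N G x
  have hsub : C5 (mapF (Gext N G x)) (x : ℤ) ⊆
      (hfin.toFinset).image (fun d : ℕ => apset ((x : ℤ) - 2 * (d : ℤ)) d 4) := by
    intro A hA
    unfold C5 at hA
    rw [mem_filter] at hA
    obtain ⟨hA, d, hd, rfl⟩ := hA
    have b0 := mem_Icc.1 (hF.sub _ hA (mem_apset.2 ⟨0, Nat.zero_le _, rfl⟩))
    have b4 := mem_Icc.1 (hF.sub _ hA (mem_apset.2 ⟨4, le_rfl, rfl⟩))
    push_cast at b0 b4
    rw [mem_image]
    refine ⟨d, ?_, rfl⟩
    rw [Set.Finite.mem_toFinset]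
    have h2d : 2 * d ≤ x := by omega
    refine ⟨?_, x - 2 * d, ?_, ?_⟩
    · rw [mem_Icc]
      refine ⟨hd, ?_⟩
      rw [Nat.le_div_iff_mul_le (by norm_num)]
      omega
    · omega
    · have e : ((Finset.range 5).image (fun i => x - 2 * d + i * d)).image
          (fun n : ℕ => (n : ℤ)) = apset ((x : ℤ) - 2 * (d : ℤ)) d 4 := by
        rw [Finset.image_image]
        unfold apset
        refine Finset.image_congr ?_
        intro i _
        simp only [Function.comp_apply]
        push_cast [Nat.cast_sub h2d]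
        ring
      rw [← e, mem_mapF] at hA
      rcases mem_Gext.1 hA with h | ⟨y, hy, h⟩ | ⟨s, hs, h⟩
      · exact h
      · exfalso
        have h3 := congrArg Finset.card h
        have h4 : ({x, y} : Finset ℕ).card ≤ 2 := card_le_two
        rw [card_image_of_injective _ (fun i j hij => by
          have : i * d = j * d := by
            have hij' : x - 2 * d + i * d = x - 2 * d + j * d := hij
            omega
          exact Nat.eq_of_mul_eq_mul_right hd this), card_range] at h3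
        omega
      · exfalso
        have h3 := congrArg Finset.card h
        rw [card_insert_of_notMem (notMem_Pm hs), (mem_Pm.1 hs).1.2,
          card_image_of_injective _ (fun i j hij => by
          have : i * d = j * d := by
            have hij' : x - 2 * d + i * d = x - 2 * d + j * d := hij
            omega
          exact Nat.eq_of_mul_eq_mul_right hd this), card_range] at h3
        omega
  refine ((card_le_card hsub).trans card_image_le).trans ?_
  rw [Set.ncard_eq_toFinset_card _ hfin]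

/-- The refined star theorem, in the language of the problem. -/
theorem star_nat {N : ℕ} {G : Finset (Finset ℕ)} {x : ℕ}
    (h1 : G ⊆ (Finset.Icc 1 N).powerset)
    (h2 : ∀ A ∈ G, ∀ B ∈ G, A ≠ B → LowAux.isAP (A ∩ B))
    (hx : x ∈ Finset.Icc 1 N) (hs : ∀ A ∈ G, x ∈ A) :
    G.card + ((Ym N G x).card + (Pm N G x).card) ≤ N.choose 2 + 1 + (Dm N G x).ncard := by
  classical
  have hx' : (x : ℤ) ∈ Finset.Icc 1 (N : ℤ) := by
    rw [mem_Icc] at hx ⊢
    constructor
    · exact_mod_cast hx.1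
    · exact_mod_cast hx.2
  have hN1 : 1 ≤ N := by
    rw [mem_Icc] at hx
    omega
  have hF : Fam N (mapF (Gext N G x)) := by
    apply fam_mapF (Gext_sub hx h1)
    intro A hA B hB hne
    obtain ⟨a, d, k, hk⟩ := Gext_ap hs h2 hA hB hne
    refine ⟨a, d, k, ?_⟩
    convert hk
  have hstar := thmStar thmSlot (thmScale0 thmPsi) N (mapF (Gext N G x)) (x : ℤ) hN1 hF hx'
  have hall : (mapF (Gext N G x)).filter (fun A => (x : ℤ) ∈ A) = mapF (Gext N G x) := by
    apply filter_true_of_mem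
    intro A hA
    unfold mapF at hA
    rw [mem_image] at hA
    obtain ⟨A', hA', rfl⟩ := hA
    apply mem_image_of_mem
    rcases mem_Gext.1 hA' with h | ⟨y, -, rfl⟩ | ⟨s, -, rfl⟩
    · exact hs A' h
    · exact mem_insert_self x _
    · exact mem_insert_self x _
  rw [hall, card_mapF, card_Gext] at hstar
  have hc := c5_nat (x := x) h1 hF
  have : (if {(x : ℤ)} ∈ mapF (Gext N G x) then 1 else 0) ≤ 1 := by split_ifs <;> simp
  omega

/-- The structure of the large families, in the language of the problem. -/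
theorem large_nat : ∃ N0 : ℕ, ∀ N : ℕ, N0 ≤ N → ∀ (G : Finset (Finset ℕ)) (r : ℕ),
    G ⊆ (Finset.Icc 1 N).powerset →
    (∀ A ∈ G, ∀ B ∈ G, A ≠ B →
      ∃ a d k : ℕ, A ∩ B = (Finset.range (k + 1)).image (fun i => a + i * d)) →
    1 ≤ r → N.choose 2 + 1 + r ≤ G.card →
    ∃ x : ℕ, (∀ A ∈ G, x ∈ A) ∧
      r + ((Finset.Icc 1 N).filter (fun y => ({x, y} : Finset ℕ) ∉ G)).card +
        ((((Finset.Icc 1 N).erase x).powersetCard 2).filter (fun s => ∀ A ∈ G, ¬ s ⊆ A)).card ≤
        {d | d ∈ Finset.Icc 1 ((N - 1) / 4) ∧ ∃ c : ℕ, c + 2 * d = x ∧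
          (Finset.range 5).image (fun i => c + i * d) ∈ G}.ncard := by
  obtain ⟨N0, h⟩ := upperNat
  refine ⟨N0, fun N hN G r h1 h2 hr hc => ?_⟩
  obtain ⟨x, hx⟩ : ∃ x : ℕ, ∀ A ∈ G, x ∈ A := by
    by_contra hcon
    have := h N hN G h1 (by
      intro A hA B hB hne
      obtain ⟨a, d, k, hk⟩ := h2 A hA B hB hne
      refine ⟨a, d, k, ?_⟩
      convert hk) hcon
    omega
  have hne : G.Nonempty := card_pos.1 (by omega)
  obtain ⟨A0, hA0⟩ := hne
  have hxI : x ∈ Finset.Icc 1 N := mem_powerset.1 (h1 hA0) (hx A0 hA0)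
  have hst := star_nat h1 h2 hxI hx
  refine ⟨x, hx, ?_⟩
  unfold Ym Pm Dm at hst
  omega

end Pool.Agent.Work.MP_1d0aa8_co.NS
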