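import Pool.Agent.Work.MP_1d0aa8_co.Bd.B03

/-!
# Non-starred families: slots, the five term progressions included
-/

set_option autoImplicit false

namespace Pool.Agent.Work.MP_1d0aa8_co.NS

open Finset
open scoped Classical

/-- Members `x - i d, …, x + j d` with `gcd i j ≥ 2` (the centred five term ones included). -/
noncomputable def YS (F : Finset (Finset ℤ)) (x : ℤ) (d : ℕ) : Finset (Finset ℤ) :=
  F.filter (fun A => ∃ i j : ℕ, A = apset (x - i * d) d (i + j) ∧ 2 ≤ Nat.gcd i j)

open ItSLOT in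
theorem split {N : ℕ} {F : Finset (Finset ℤ)} (hF : Fam N F) {x : ℤ} :
    F.filter (fun A => x ∈ A ∧ 3 ≤ A.card) ⊆
      NA F x ∪ (Cop F x ∪ (Icc 1 N).biUnion (YS F x)) := by
  intro A hA
  rw [mem_filter] at hA
  obtain ⟨hAF, hxA, hc⟩ := hA
  by_cases hap : APc A
  · obtain ⟨a, d, k, hd, rfl⟩ := hap.exists_apset
    have hck := card_apset (a := a) (k := k) hd
    rw [hck] at hc
    obtain ⟨i, hi, hxi⟩ := mem_apset.1 hxA
    obtain ⟨j, hj⟩ : ∃ j, k = i + j := ⟨k - i, by omega⟩
    have ha : a = x - i * d := by rw [hxi]; ring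
    subst hj
    rw [ha] at hAF hxA ⊢
    have hdN : d ≤ N := by
      have h1 := hF.mem_Icc hAF (y := x - i * d) (mem_apset.2 ⟨0, Nat.zero_le _, by simp⟩)
      have h2 := hF.mem_Icc hAF (y := x - i * d + (i + j : ℕ) * d)
        (mem_apset.2 ⟨i + j, le_rfl, rfl⟩)
      have h3 : (2 : ℤ) ≤ ((i + j : ℕ) : ℤ) := by omega
      have h4 : (1 : ℤ) ≤ (d : ℤ) := by exact_mod_cast hd
      have h5 : (2 : ℤ) * d ≤ ((i + j : ℕ) : ℤ) * d := by nlinarith
      have h6 : (d : ℤ) ≤ N := by linarith [h1.1, h2.2]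
      exact_mod_cast h6
    rw [mem_union, mem_union]
    right
    by_cases hg : Nat.Coprime i j
    · left
      rw [Cop, mem_filter]
      refine ⟨hAF, d, i, j, hd, ?_, ?_, hg, rfl⟩
      · rcases Nat.eq_zero_or_pos i with h | h
        · rw [h, Nat.coprime_zero_left] at hg; omega
        · exact h
      · rcases Nat.eq_zero_or_pos j with h | h
        · rw [h, Nat.coprime_zero_right] at hg; omega
        · exact h
    · right
      have hg2 : 2 ≤ Nat.gcd i j := by
        have h1 : Nat.gcd i j ≠ 0 := by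
          intro h; rw [Nat.gcd_eq_zero_iff] at h; omega
        have h2 : Nat.gcd i j ≠ 1 := hg
        omega
      rw [mem_biUnion]
      refine ⟨d, mem_Icc.2 ⟨hd, hdN⟩, ?_⟩
      rw [YS, mem_filter]
      exact ⟨hAF, i, j, rfl, hg2⟩
  · rw [mem_union]
    left
    rw [NA, mem_filter]
    exact ⟨hAF, hxA, hap⟩

open ItSLOT in
/-- SLOT, with a slot for every member of `YS`. -/
theorem slotN (N : ℕ) (F : Finset (Finset ℤ)) (x : ℤ) (P : Finset (ℤ × ℤ))
    (hF : Fam N F) (hx : x ∈ Icc 1 (N : ℤ)) (hP : P ⊆ Prs N x) (hPx : ∀ p ∈ P, x < p.1)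
    (hown : ∀ A ∈ NA F x, ∃ u ∈ A, ∃ v ∈ A, u < v ∧ u ≠ x ∧ v ≠ x ∧ ¬ hull x u v ⊆ A ∧ (u, v) ∉ P)
    (hXS : ∀ d : ℕ, 1 ≤ d → (YS F x d).card ≤
      ((CovS N F x d).filter (fun p => (x < p.1 ∨ p.2 < x) ∧ p ∉ P)).card) :
    (F.filter (fun A => x ∈ A ∧ 3 ≤ A.card)).card + P.card ≤ (N - 1).choose 2 := by
  -- the three parts
  have hcard : (F.filter (fun A => x ∈ A ∧ 3 ≤ A.card)).card ≤
      (NA F x).card + ((Cop F x).card + ((Icc 1 N).biUnion (YS F x)).card) := by
    refine (card_le_card (split hF)).trans ?_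
    refine (card_union_le _ _).trans (Nat.add_le_add_left ?_ _)
    exact card_union_le _ _
  -- slots of the non-AP members
  have hNA : (NA F x).card ≤ ((Prs N x).filter (fun p => p ∉ Cov N F x ∧ p ∉ P)).card := by
    choose! u hu v hv huv hux hvx hnot hPn using hown
    refine card_le_card_of_injOn (fun A => (u A, v A)) ?_ ?_
    · intro A hA
      have hA' := hA
      rw [mem_coe, NA, mem_filter] at hA'
      obtain ⟨hAF, hxA, hnap⟩ := hA'
      rw [mem_coe] at hA
      rw [mem_coe, mem_filter, mem_Prs]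
      refine ⟨⟨⟨hF.sub A hAF (hu A hA), hF.sub A hAF (hv A hA)⟩, huv A hA, hux A hA, hvx A hA⟩,
        ?_, hPn A hA⟩
      intro hc
      rw [mem_Cov] at hc
      obtain ⟨-, B, hB, hBap, hxB, huB, hvB⟩ := hc
      have := hF.own_unique hAF hB hxA (hu A hA) (hv A hA) hxB huB hvB (hnot A hA)
      rw [this] at hnap
      exact hnap hBap
    · intro A hA B hB hAB
      rw [mem_coe] at hA hB
      have hA' := hA
      have hB' := hB
      rw [NA, mem_filter] at hA' hB'
      simp only [Prod.mk.injEq] at hAB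
      refine hF.own_unique hA'.1 hB'.1 hA'.2.1 (hu A hA) (hv A hA) hB'.2.1 ?_ ?_ (hnot A hA)
      · rw [hAB.1]; exact hu B hB
      · rw [hAB.2]; exact hv B hB
  -- slots of the coprime progressions
  have hCop : (Cop F x).card ≤
      ((Cov N F x).filter (fun p => p.1 < x ∧ x < p.2)).card := by
    have hex : ∀ A ∈ Cop F x, ∃ d i j : ℕ, 1 ≤ d ∧ 1 ≤ i ∧ 1 ≤ j ∧ Nat.Coprime i j ∧
        A = apset (x - i * d) d (i + j) := by
      intro A hA
      rw [Cop, mem_filter] at hA
      exact hA.2
    choose! d i j hd hi hj hco hA using hex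
    refine card_le_card_of_injOn (fun A => (x - i A * d A, x + j A * d A)) ?_ ?_
    · intro A hAC
      rw [mem_coe] at hAC
      have hAF : A ∈ F := by rw [Cop, mem_filter] at hAC; exact hAC.1
      have hd' : (1 : ℤ) ≤ (d A : ℤ) := by exact_mod_cast hd A hAC
      have hi' : (1 : ℤ) ≤ (i A : ℤ) := by exact_mod_cast hi A hAC
      have hj' : (1 : ℤ) ≤ (j A : ℤ) := by exact_mod_cast hj A hAC
      have hid : (1 : ℤ) ≤ (i A : ℤ) * d A := by nlinarith
      have hjd : (1 : ℤ) ≤ (j A : ℤ) * d A := by nlinarith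
      have m1 : x - i A * d A ∈ A := by
        have := mem_apset.2 ⟨0, Nat.zero_le (i A + j A), (by simp :
          x - (i A : ℤ) * d A = (x - (i A : ℤ) * d A) + ((0 : ℕ) : ℤ) * (d A : ℤ))⟩
        rwa [← hA A hAC] at this
      have m2 : x ∈ A := by
        have := mem_apset.2 ⟨i A, Nat.le_add_right (i A) (j A), (by ring :
          x = (x - (i A : ℤ) * d A) + ((i A : ℕ) : ℤ) * (d A : ℤ))⟩
        rwa [← hA A hAC] at this
      have m3 : x + j A * d A ∈ A := by
        have := mem_apset.2 ⟨i A + j A, le_rfl, (by push_cast; ring :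
          x + (j A : ℤ) * d A = (x - (i A : ℤ) * d A) + ((i A + j A : ℕ) : ℤ) * (d A : ℤ))⟩
        rwa [← hA A hAC] at this
      rw [mem_coe, mem_filter, mem_Cov, mem_Prs]
      refine ⟨⟨⟨⟨hF.sub A hAF m1, hF.sub A hAF m3⟩, ?_, ?_, ?_⟩, A, hAF, ?_, m2, m1, m3⟩, ?_, ?_⟩
      · dsimp only; linarith
      · dsimp only; intro h; linarith
      · dsimp only; intro h; linarith
      · rw [hA A hAC]; exact APc_apset _ _ _
      · dsimp only; linarith
      · dsimp only; linarith
    · intro A hAC B hBC hAB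
      rw [mem_coe] at hAC hBC
      simp only [Prod.mk.injEq] at hAB
      have g1 := gcd_slot x (d A) (i A) (j A) (hco A hAC)
      have g2 := gcd_slot x (d B) (i B) (j B) (hco B hBC)
      rw [hAB.1, hAB.2, g2] at g1
      have hdB : (1 : ℤ) ≤ (d B : ℤ) := by exact_mod_cast hd B hBC
      have hd0 : (d B : ℤ) ≠ 0 := by linarith
      have hAB1 := hAB.1
      have hAB2 := hAB.2
      rw [← g1] at hAB1 hAB2
      have e1 : (i A : ℤ) * d B = i B * d B := by linarith
      have e2 : (j A : ℤ) * d B = j B * d B := by linarith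
      have e1' : i A = i B := by exact_mod_cast mul_right_cancel₀ hd0 e1
      have e2' : j A = j B := by exact_mod_cast mul_right_cancel₀ hd0 e2
      rw [hA A hAC, hA B hBC, e1', e2', g1]
  -- slots of the others
  have hX : ((Icc 1 N).biUnion (YS F x)).card ≤
      ((Cov N F x).filter (fun p => (x < p.1 ∨ p.2 < x) ∧ p ∉ P)).card := by
    refine card_biUnion_le.trans ?_
    refine (sum_le_sum fun d hd => hXS d (mem_Icc.1 hd).1).trans ?_
    rw [← card_biUnion]
    · refine card_le_card ?_
      intro p hp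
      rw [mem_biUnion] at hp
      obtain ⟨d, -, hp⟩ := hp
      rw [mem_filter, mem_CovS] at hp
      rw [mem_filter]
      exact ⟨hp.1.1, hp.2⟩
    · intro d _ e _ hne
      change Disjoint _ _
      rw [disjoint_left]
      intro p hp hp'
      beta_reduce at hp hp'
      rw [mem_filter, mem_CovS] at hp hp'
      exact hne (hp.1.2.symm.trans hp'.1.2)
  -- disjointness
  have htot : ((Prs N x).filter (fun p => p ∉ Cov N F x ∧ p ∉ P)).card +
      (((Cov N F x).filter (fun p => p.1 < x ∧ x < p.2)).card +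
        (((Cov N F x).filter (fun p => (x < p.1 ∨ p.2 < x) ∧ p ∉ P)).card + P.card)) ≤
      (Prs N x).card := by
    have hCP : Cov N F x ⊆ Prs N x := filter_subset _ _
    rw [← card_union_of_disjoint, ← card_union_of_disjoint, ← card_union_of_disjoint]
    · refine card_le_card ?_
      refine union_subset (filter_subset _ _) (union_subset ((filter_subset _ _).trans hCP)
        (union_subset ((filter_subset _ _).trans hCP) hP))
    · rw [disjoint_left]
      intro p hp hp'
      rw [mem_filter] at hp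
      rw [mem_union, mem_union, mem_filter, mem_filter] at hp'
      rcases hp' with h | h | h
      · exact hp.2.1 h.1
      · exact hp.2.1 h.1
      · exact hp.2.2 h
    · rw [disjoint_left]
      intro p hp hp'
      rw [mem_filter] at hp
      rw [mem_union, mem_filter] at hp'
      rcases hp' with h | h
      · rcases h.2.1 with h2 | h2
        · linarith [hp.2.1]
        · linarith [hp.2.2]
      · linarith [hp.2.1, hPx p h]
    · rw [disjoint_left]
      intro p hp hp'
      rw [mem_filter] at hp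
      exact hp.2.2 hp'
  rw [card_Prs hx] at htot
  omega

end Pool.Agent.Work.MP_1d0aa8_co.NS
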